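import Pool.Agent.H45.CH.Defs

/-!
# CH Loc

Elements of a valuation ring as fractions of integral elements.
-/

set_option autoImplicit false

namespace Pool.Agent.H45.CH

open IntermediateField Polynomial

section

variable {K : Type*} [Field K] {A : Subring K}

/-- the value `a_j + a_(j+1) z + ...` -/
private noncomputable def Loc_b (f : A[X]) (z : K) (j : ℕ) : K := aeval z (divX^[j] f)

private theorem Loc_coeff (f : A[X]) (j k : ℕ) : (divX^[j] f).coeff k = f.coeff (k + j) := by
  induction j generalizing k with
  | zero => rfl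
  | succ j ih =>
    rw [Function.iterate_succ_apply', coeff_divX, ih]
    congr 1
    omega

private theorem Loc_succ (f : A[X]) (z : K) (j : ℕ) :
    Loc_b f z j = Loc_b f z (j + 1) * z + (f.coeff j : K) := by
  unfold Loc_b
  conv_lhs => rw [← divX_mul_X_add (divX^[j] f)]
  rw [map_add, map_mul, aeval_X, aeval_C, Function.iterate_succ_apply', Loc_coeff, zero_add]
  rfl

private theorem Loc_big (f : A[X]) (z : K) (j : ℕ) (hj : f.natDegree < j) : Loc_b f z j = 0 := by
  unfold Loc_b
  have : divX^[j] f = 0 := by
    ext k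
    rw [Loc_coeff, coeff_eq_zero_of_natDegree_lt (by omega)]
    simp
  rw [this, map_zero]

private theorem Loc_rel (f : A[X]) (z : K) (hf : aeval z f = 0) (j : ℕ) :
    z ^ j * Loc_b f z j + ∑ k : Fin j, (f.coeff k : K) * z ^ (k : ℕ) = 0 := by
  induction j with
  | zero => simp [Loc_b, hf]
  | succ j ih =>
    rw [Loc_succ] at ih
    rw [Fin.sum_univ_castSucc]
    simp only [Fin.val_castSucc, Fin.val_last]
    linear_combination ih

private theorem Loc_int_mul (f : A[X]) (z : K) (hf : aeval z f = 0) (j : ℕ)
    (hb : IsIntegral A (Loc_b f z j)) : IsIntegral A (Loc_b f z j * z) := by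
  cases j with
  | zero =>
    have : Loc_b f z 0 = 0 := hf
    rw [this, zero_mul]
    exact isIntegral_zero
  | succ n =>
    let β : integralClosure A K := ⟨Loc_b f z (n + 1), hb⟩
    have hβ : algebraMap (integralClosure A K) K β = Loc_b f z (n + 1) := rfl
    have h1 : IsIntegral (integralClosure A K) (Loc_b f z (n + 1) * z) := by
      refine ⟨X ^ (n + 1) + ∑ k : Fin (n + 1),
        C (algebraMap A (integralClosure A K) (f.coeff k) * β ^ (n - (k : ℕ))) * X ^ (k : ℕ),
        monic_X_pow_add (degree_sum_fin_lt _), ?_⟩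
      rw [eval₂_add, eval₂_X_pow, eval₂_finsetSum]
      have h2 : ∀ k : Fin (n + 1), eval₂ (algebraMap (integralClosure A K) K)
          (Loc_b f z (n + 1) * z)
          (C (algebraMap A (integralClosure A K) (f.coeff k) * β ^ (n - (k : ℕ))) * X ^ (k : ℕ)) =
          Loc_b f z (n + 1) ^ n * ((f.coeff k : K) * z ^ (k : ℕ)) := by
        intro k
        rw [eval₂_mul, eval₂_C, eval₂_X_pow, map_mul, map_pow, hβ, mul_pow]
        have h3 : algebraMap (integralClosure A K) K
            (algebraMap A (integralClosure A K) (f.coeff k)) = (f.coeff k : K) := rfl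
        rw [h3]
        have h4 : Loc_b f z (n + 1) ^ n =
            Loc_b f z (n + 1) ^ (n - (k : ℕ)) * Loc_b f z (n + 1) ^ (k : ℕ) := by
          rw [← pow_add]
          congr 1
          have := k.2
          omega
        rw [h4]
        ring
      rw [Finset.sum_congr rfl fun k _ => h2 k, ← Finset.mul_sum]
      have h5 := Loc_rel f z hf (n + 1)
      linear_combination (Loc_b f z (n + 1)) ^ n * h5
    exact isIntegral_trans _ h1

private theorem Loc_int (f : A[X]) (z : K) (hf : aeval z f = 0) (j : ℕ) :
    IsIntegral A (Loc_b f z j) := by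
  have : ∀ n j : ℕ, f.natDegree + 1 ≤ j + n → IsIntegral A (Loc_b f z j) := by
    intro n
    induction n with
    | zero =>
      intro j hj
      rw [Loc_big f z j (by omega)]
      exact isIntegral_zero
    | succ n ih =>
      intro j hj
      rw [Loc_succ]
      exact (Loc_int_mul f z hf (j + 1) (ih (j + 1) (by omega))).add
        (isIntegral_algebraMap (R := A) (A := K) (x := f.coeff j))
  exact this (f.natDegree + 1) j (by omega)

private theorem Loc_val (O : ValuationSubring K) (f : A[X]) (z : K) (hz : z ∈ O) (j : ℕ)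
    (h : ∀ k, j ≤ k → O.valuation (f.coeff k : K) < 1) : O.valuation (Loc_b f z j) < 1 := by
  have : ∀ n j : ℕ, f.natDegree + 1 ≤ j + n →
      (∀ k, j ≤ k → O.valuation (f.coeff k : K) < 1) → O.valuation (Loc_b f z j) < 1 := by
    intro n
    induction n with
    | zero =>
      intro j hj _
      rw [Loc_big f z j (by omega), map_zero]
      exact zero_lt_one
    | succ n ih =>
      intro j hj h
      rw [Loc_succ]
      refine Valuation.map_add_lt _ ?_ (h j le_rfl)
      rw [map_mul]
      have h1 := ih (j + 1) (by omega) fun k hk => h k (by omega)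
      have h2 : O.valuation z ≤ 1 := (O.valuation_le_one_iff z).2 hz
      calc O.valuation (Loc_b f z (j + 1)) * O.valuation z
          ≤ O.valuation (Loc_b f z (j + 1)) * 1 := by gcongr
        _ < 1 := by rwa [mul_one]
  exact this (f.natDegree + 1) j (by omega) h

end

/-- `A` is a subring of the valuation ring `O` of `K`, `f` a polynomial over `A` with `f(z) = 0`
and a coefficient which is a unit of `O`; then `z = c / b` with `b, c` integral over `A` and `b` a
unit of `O`. (Take the last unit coefficient `a_j`, and `b = a_m z ^ (m - j) + ... + a_j`: by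
descending induction on `j` both `b_j` and `b_j * z` are integral over `A`.) -/
theorem exists_frac {K : Type*} [Field K] (O : ValuationSubring K) (A : Subring K)
    (hA : ∀ a ∈ A, a ∈ O) (z : K) (hz : z ∈ O) (f : A[X]) (hf : aeval z f = 0) (i : ℕ)
    (hi : (f.coeff i : K)⁻¹ ∈ O) (hi0 : (f.coeff i : K) ≠ 0) :
    ∃ b c : K, IsIntegral A b ∧ IsIntegral A c ∧ b ∈ O ∧ b⁻¹ ∈ O ∧ b ≠ 0 ∧ z = c * b⁻¹ := by
  classical
  have hle : ∀ k, O.valuation (f.coeff k : K) ≤ 1 := fun k =>
    (O.valuation_le_one_iff _).2 (hA _ (f.coeff k).2)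
  have hP : O.valuation (f.coeff i : K) = 1 := by
    refine le_antisymm (hle i) ?_
    have h1 : (O.valuation (f.coeff i : K))⁻¹ ≤ 1 := by
      rw [← map_inv₀]
      exact (O.valuation_le_one_iff _).2 hi
    have h2 : O.valuation (f.coeff i : K) ≠ 0 := (Valuation.ne_zero_iff _).2 hi0
    rwa [inv_le_one₀ (zero_lt_iff.2 h2)] at h1
  have him : i ≤ f.natDegree := by
    apply le_natDegree_of_ne_zero
    intro h
    apply hi0
    rw [h]
    rfl
  obtain ⟨j, hj1, hj2⟩ : ∃ j, O.valuation (f.coeff j : K) = 1 ∧
      ∀ k, j < k → O.valuation (f.coeff k : K) < 1 := by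
    refine ⟨Nat.findGreatest (fun k => O.valuation (f.coeff k : K) = 1) f.natDegree,
      Nat.findGreatest_spec (P := fun k => O.valuation (f.coeff k : K) = 1) him hP,
      fun k hk => ?_⟩
    rcases Nat.lt_or_ge f.natDegree k with h | h
    · rw [coeff_eq_zero_of_natDegree_lt h]
      have : O.valuation ((0 : A) : K) = 0 := map_zero _
      rw [this]
      exact zero_lt_one
    · exact lt_of_le_of_ne (hle k) (Nat.findGreatest_is_greatest hk h)
  have hb : O.valuation (Loc_b f z j) = 1 := by
    rw [Loc_succ, ← hj1]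
    apply Valuation.map_add_eq_of_lt_right
    rw [hj1, map_mul]
    have h1 := Loc_val O f z hz (j + 1) fun k hk => hj2 k (by omega)
    have h2 : O.valuation z ≤ 1 := (O.valuation_le_one_iff z).2 hz
    calc O.valuation (Loc_b f z (j + 1)) * O.valuation z
        ≤ O.valuation (Loc_b f z (j + 1)) * 1 := by gcongr
      _ < 1 := by rwa [mul_one]
  have hb0 : Loc_b f z j ≠ 0 := by
    intro h
    rw [h, map_zero] at hb
    exact zero_ne_one hb
  refine ⟨Loc_b f z j, Loc_b f z j * z, Loc_int f z hf j,
    Loc_int_mul f z hf j (Loc_int f z hf j), (O.valuation_le_one_iff _).1 hb.le, ?_, hb0, ?_⟩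
  · apply (O.valuation_le_one_iff _).1
    rw [map_inv₀, hb, inv_one]
  · field_simp

/-- clearing denominators: `z` is algebraic over the subfield `L`, `A = O ∩ L`; then there is a
polynomial over `A` vanishing at `z` with a coefficient equal to `1` -/
theorem exists_prim {K : Type*} [Field K] (O : ValuationSubring K) (L : Subfield K) (z : K)
    (hz : IsAlgebraic L z) : ∃ f : (O.toSubring ⊓ L.toSubring : Subring K)[X],
      aeval z f = 0 ∧ ∃ i, f.coeff i = 1 := by
  obtain ⟨g, hg0, hg⟩ := hz
  obtain ⟨i, hi, hmax⟩ := Finset.exists_max_image g.support (fun k => O.valuation (g.coeff k : K))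
    (by rwa [Finset.nonempty_iff_ne_empty, ne_eq, support_eq_empty])
  have hi0 : (g.coeff i : K) ≠ 0 := by
    have := mem_support_iff.1 hi
    exact fun h => this (Subtype.ext h)
  have hv0 : 0 < O.valuation (g.coeff i : K) := zero_lt_iff.2 ((Valuation.ne_zero_iff _).2 hi0)
  let h : K[X] := C ((g.coeff i : K)⁻¹) * g.map L.subtype
  have hc : ∀ k, h.coeff k = (g.coeff i : K)⁻¹ * (g.coeff k : K) := by
    intro k
    simp only [h, coeff_C_mul, coeff_map]
    rfl
  have hmem : ∀ k, h.coeff k ∈ (O.toSubring ⊓ L.toSubring : Subring K) := by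
    intro k
    rw [hc]
    refine ⟨?_, ?_⟩
    · apply (O.valuation_le_one_iff _).1
      rw [map_mul, map_inv₀]
      by_cases hk : k ∈ g.support
      · rw [inv_mul_le_iff₀ hv0, mul_one]
        exact hmax k hk
      · have : g.coeff k = 0 := notMem_support_iff.1 hk
        rw [this]
        have h0 : O.valuation ((0 : L) : K) = 0 := map_zero _
        rw [h0, mul_zero]
        exact zero_le_one
    · exact L.mul_mem (L.inv_mem (g.coeff i).2) (g.coeff k).2
  have hT : (↑h.coeffs : Set K) ⊆ (O.toSubring ⊓ L.toSubring : Subring K) := by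
    intro c hc'
    obtain ⟨k, _, rfl⟩ := mem_coeffs_iff.1 hc'
    exact hmem k
  refine ⟨h.toSubring _ hT, ?_, i, ?_⟩
  · rw [aeval_def, ← eval_map]
    have h1 : (h.toSubring _ hT).map (algebraMap (O.toSubring ⊓ L.toSubring : Subring K) K) = h :=
      map_toSubring h _ hT
    rw [h1]
    simp only [h, eval_mul, eval_C]
    have h2 : eval z (g.map L.subtype) = 0 := by
      rw [eval_map]
      exact hg
    rw [h2, mul_zero]
  · apply Subtype.ext
    rw [coeff_toSubring, hc]
    exact inv_mul_cancel₀ hi0

end Pool.Agent.H45.CH
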