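import Pool.Agent.H45.CH.Base
import Pool.Agent.H45.CH.Loc
import Pool.Agent.H45.ALG.Ac

/-!
# CH Aby

The residue field of `[t_1, …, t_r]`.
-/

set_option autoImplicit false

namespace Pool.Agent.H45.CH

open IntermediateField

variable {k E κ K : Type*} [Field k] [Field E] [Field κ] [Field K] [Algebra k κ]
    [Algebra E K] {O : ValuationSubring K} {ρ : O →+* κ} {n : ℕ} {x : Fin n → O}

open ALG in
/-- an algebraically independent family in `[t_1, …, t_r]` has at most `r` members -/
private theorem Aby_card {T : Type*} {r : ℕ} (t : Fin r → K) {g : T → K}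
    (hg : AlgebraicIndependent E g) (h : ∀ j, g j ∈ ALG.bracket (k := E) t) :
    Finite T ∧ Nat.card T ≤ r := by
  have key : ∀ m : ℕ, ∀ e : Fin m → T, Function.Injective e → m ≤ r := by
    intro m e he
    have h1 : AlgebraicIndependent E (g ∘ e) := hg.comp e he
    have h2 := card_le_of_indep h1 t (fun j => h (e j))
    simpa using h2
  have hfin : Finite T := by
    by_contra hinf
    rw [not_finite_iff_infinite] at hinf
    have e := Infinite.natEmbedding T
    have := key (r + 1) (fun i => e i) (fun i j hij => Fin.ext (e.injective hij))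
    omega
  refine ⟨hfin, ?_⟩
  have e := (Finite.equivFin T).symm
  exact key _ e e.injective

open ALG IntermediateField.algebraAdjoinAdjoin in
/-- residues of elements of `[t_1, …, t_r] ∩ O`, `t_i ∈ F`, are algebraic over `k` and `r` residues
of elements of `F ∩ O`. (Take a maximal `k`-independent family of residues of elements of
`[t] ∩ F ∩ O`; it has at most `r` members by `indep_of_indep`; for `w ∈ [t] ∩ O` use `exists_prim`
for `L = E(t)`.) -/
theorem exists_residues (h : Red k E O ρ x) (F : IntermediateField E K) {r : ℕ} (t : Fin r → K)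
    (ht : ∀ i, t i ∈ F) :
    ∃ y : Fin r → O, (∀ i, (y i : K) ∈ F) ∧ ∀ w : O, (w : K) ∈ ALG.bracket (k := E) t →
      ρ w ∈ ALG.bracket (k := k) (fun i => ρ (y i)) := by
  classical
  obtain ⟨T, hT⟩ := (AlgebraicIndependent.matroid k κ).exists_isBasis
    {τ : κ | ∃ a : O, (a : K) ∈ F ∧ (a : K) ∈ ALG.bracket (k := E) t ∧ ρ a = τ}
  rw [AlgebraicIndependent.matroid_isBasis_iff] at hT
  obtain ⟨hTi, hTS, hTa⟩ := hT
  have hex : ∀ τ : T, ∃ a : O, (a : K) ∈ F ∧ (a : K) ∈ ALG.bracket (k := E) t ∧ ρ a = τ :=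
    fun τ => hTS τ.2
  choose y hyF hyt hyρ using hex
  have hyi : AlgebraicIndependent k (fun i : T => ρ (y i)) := by
    have h1 : (fun i : T => ρ (y i)) = fun i : T => (i : κ) := funext hyρ
    rw [h1]
    exact hTi
  obtain ⟨hfin, hcard⟩ := Aby_card (E := E) t (indep_of_indep h y hyi) hyt
  obtain ⟨e, he⟩ : ∃ e : T → Fin r, Function.Injective e := by
    have e1 := Finite.equivFin T
    exact ⟨fun τ => Fin.castLE hcard (e1 τ),
      (Fin.castLE_injective hcard).comp e1.injective⟩
  obtain ⟨y', hy'e, hy'F⟩ : ∃ y' : Fin r → O, (∀ τ, y' (e τ) = y τ) ∧ ∀ i, (y' i : K) ∈ F := by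
    refine ⟨Function.extend e y (fun _ => 0), fun τ => he.extend_apply _ _ _, fun i => ?_⟩
    by_cases hi : ∃ τ, e τ = i
    · obtain ⟨τ, rfl⟩ := hi
      rw [he.extend_apply]
      exact hyF τ
    · rw [Function.extend_apply' _ _ _ hi]
      exact F.zero_mem
  refine ⟨y', hy'F, fun w hw => ?_⟩
  obtain ⟨B, hB⟩ : ∃ B : IntermediateField k κ, B = ALG.bracket (k := k) (fun i => ρ (y' i)) :=
    ⟨_, rfl⟩
  rw [← hB]
  -- the residues of elements of `L ∩ O` are in `B`
  have hres : ∀ a : O, (a : K) ∈ adjoin E (Set.range t) → ρ a ∈ B := by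
    intro a ha
    have haF : (a : K) ∈ F := by
      have h1 : adjoin E (Set.range t) ≤ F := by
        rw [adjoin_le_iff]
        rintro _ ⟨i, rfl⟩
        exact ht i
      exact h1 ha
    have hat : (a : K) ∈ ALG.bracket (k := E) t := le_ac _ ha
    have h1 := hTa (ρ a) ⟨a, haF, hat, rfl⟩
    rw [IsFractionRing.isAlgebraic_iff (Algebra.adjoin k T) (adjoin k T)] at h1
    have h2 : ρ a ∈ ac (adjoin k T) := mem_ac.2 h1
    rw [hB]
    refine ac_mono ?_ h2
    rw [adjoin_le_iff]
    intro τ hτ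
    refine subset_adjoin k _ ⟨e ⟨τ, hτ⟩, ?_⟩
    change ρ (y' (e ⟨τ, hτ⟩)) = τ
    rw [hy'e, hyρ]
  -- the polynomial
  have hwL : IsAlgebraic (adjoin E (Set.range t)).toSubfield (w : K) := by
    have h1 : (w : K) ∈ ac (adjoin E (Set.range t)) := hw
    exact mem_ac.1 h1
  obtain ⟨f, hf, i, hi⟩ := exists_prim O (adjoin E (Set.range t)).toSubfield (w : K) hwL
  let ι : (O.toSubring ⊓ (adjoin E (Set.range t)).toSubfield.toSubring : Subring K) →+* O :=
    { toFun := fun a => ⟨a.1, a.2.1⟩
      map_one' := rfl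
      map_mul' := fun _ _ => rfl
      map_zero' := rfl
      map_add' := fun _ _ => rfl }
  have h0 : f.eval₂ ι w = 0 := by
    have h1 : (O.subtype (f.eval₂ ι w) : K) = 0 := by
      rw [Polynomial.hom_eval₂]
      exact hf
    exact Subtype.ext h1
  have hmem : ∀ a, (ρ.comp ι) a ∈ B := fun a => hres (ι a) a.2.2
  have h2 : f.eval₂ (ρ.comp ι) (ρ w) = 0 := by
    rw [← Polynomial.hom_eval₂, h0, map_zero]
  have hB2 : ac B = B := by
    rw [hB]
    exact ac_ac _
  rw [← hB2, mem_ac]
  refine ⟨f.map ((ρ.comp ι).codRestrict B hmem), fun h3 => ?_, ?_⟩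
  · have h4 := congrArg (fun P => P.coeff i) h3
    simp only [Polynomial.coeff_map, hi, map_one, Polynomial.coeff_zero] at h4
    exact one_ne_zero h4
  · rw [Polynomial.aeval_def, Polynomial.eval₂_map]
    exact h2

end Pool.Agent.H45.CH
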