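import Pool.Agent.H45.CH.Defs
import Pool.Agent.H45.CH.Res

/-!
# CH Inr

Automorphisms with trivial residue action have orbits of `p`-power length.
-/

set_option autoImplicit false

namespace Pool.Agent.H45.CH

open IntermediateField

variable {k E κ K : Type*} [Field k] [Field E] [Field κ] [Field K] [Algebra k κ]
    [Algebra E K] {O : ValuationSubring K} {ρ : O →+* κ} {n : ℕ} {x : Fin n → O}

/-- an automorphism which fixes the `t_i` fixes `E(t)` -/
private theorem inr_fix {r : ℕ} (t : Fin r → K) (g : K ≃ₐ[E] K) (hgt : ∀ i, g (t i) = t i)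
    {a : K} (ha : a ∈ adjoin E (Set.range t)) : g a = a := by
  induction ha using adjoin_induction with
  | mem a ha => obtain ⟨i, rfl⟩ := ha; exact hgt i
  | algebraMap a => exact g.commutes a
  | add a b _ _ h1 h2 => rw [map_add, h1, h2]
  | inv a _ h1 => rw [map_inv₀, h1]
  | mul a b _ _ h1 h2 => rw [map_mul, h1, h2]

private theorem inr_pow_fix {r : ℕ} (t : Fin r → K) (g : K ≃ₐ[E] K) (hgt : ∀ i, g (t i) = t i)
    (m : ℕ) (i : Fin r) : (g ^ m) (t i) = t i := by
  induction m with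
  | zero => rfl
  | succ m ih => rw [pow_succ, AlgEquiv.mul_apply, hgt, ih]

private theorem inr_mem {r : ℕ} (t : Fin r → K) (w : K) :
    w ∈ ALG.bracket (k := E) t ↔ IsAlgebraic (adjoin E (Set.range t)) w := by
  rw [ALG.bracket, mem_restrictScalars, mem_algebraicClosure_iff]

/-- the conjugates of `w` over `E(t)` are roots of its minimal polynomial -/
private theorem inr_root {r : ℕ} (t : Fin r → K) (g : K ≃ₐ[E] K) (hgt : ∀ i, g (t i) = t i)
    (q : Polynomial (adjoin E (Set.range t))) {w : K} (hq : Polynomial.aeval w q = 0) :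
    Polynomial.aeval (g w) q = 0 := by
  let e : K →ₐ[adjoin E (Set.range t)] K :=
    { g.toAlgHom.toRingHom with
      commutes' := fun a => inr_fix t g hgt a.2 }
  have h1 : Polynomial.aeval (e w) q = e (Polynomial.aeval w q) :=
    Polynomial.aeval_algHom_apply e w q
  rw [hq, map_zero] at h1
  exact h1

private theorem inr_bracket {r : ℕ} (t : Fin r → K) (g : K ≃ₐ[E] K) (hgt : ∀ i, g (t i) = t i)
    {w : K} (hw : w ∈ ALG.bracket (k := E) t) : g w ∈ ALG.bracket (k := E) t := by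
  rw [inr_mem] at hw ⊢
  obtain ⟨q, hq0, hq⟩ := hw
  exact ⟨q, hq0, inr_root t g hgt q hq⟩

private theorem inr_pow_bracket {r : ℕ} (t : Fin r → K) (g : K ≃ₐ[E] K)
    (hgt : ∀ i, g (t i) = t i) {w : K} (hw : w ∈ ALG.bracket (k := E) t) (m : ℕ) :
    (g ^ m) w ∈ ALG.bracket (k := E) t :=
  inr_bracket t (g ^ m) (fun i => inr_pow_fix t g hgt m i) hw

private theorem inr_iterate (g : K ≃ₐ[E] K) (m : ℕ) (w : K) : (g ^ m) w = (g : K → K)^[m] w := by
  induction m with
  | zero => rfl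
  | succ m ih => rw [pow_succ', AlgEquiv.mul_apply, ih, Function.iterate_succ_apply']

/-- the orbit is finite -/
private theorem inr_periodic {r : ℕ} (t : Fin r → K) (g : K ≃ₐ[E] K) (hgt : ∀ i, g (t i) = t i)
    {w : K} (hw : w ∈ ALG.bracket (k := E) t) : ∃ m : ℕ, 0 < m ∧ (g ^ m) w = w := by
  classical
  obtain ⟨q, hq0, hq⟩ := (inr_mem t w).1 hw
  have hroot : ∀ i : ℕ, (g ^ i) w ∈ q.rootSet K := by
    intro i
    rw [Polynomial.mem_rootSet]
    exact ⟨hq0, inr_root t (g ^ i) (fun j => inr_pow_fix t g hgt i j) q hq⟩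
  have hfin : Finite (q.rootSet K) := (Polynomial.rootSet_finite q K).to_subtype
  obtain ⟨i, j, hij, he⟩ := Finite.exists_ne_map_eq_of_infinite
    (fun i : ℕ => (⟨(g ^ i) w, hroot i⟩ : q.rootSet K))
  have he' : (g ^ i) w = (g ^ j) w := congrArg Subtype.val he
  have main : ∀ a b : ℕ, a < b → (g ^ a) w = (g ^ b) w → ∃ m : ℕ, 0 < m ∧ (g ^ m) w = w := by
    intro a b hab h1
    refine ⟨b - a, by omega, ?_⟩
    have h2 : b = a + (b - a) := by omega
    rw [h2, pow_add, AlgEquiv.mul_apply] at h1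
    exact ((g ^ a).injective h1).symm
  rcases lt_or_gt_of_ne hij with h1 | h1
  · exact main i j h1 he'
  · exact main j i h1 he'.symm

/-- `g` fixes the `t_i` and its residue automorphism fixes the residues of `[t] ∩ O`; then every
`w ∈ [t]` is fixed by some `g ^ (p ^ a)`. (Minimal period `N = p ^ b * e`; for a prime `ℓ ∣ e` apply
`exists_resolvent` to `g ^ (N / ℓ)`, scale `y` by an element of `E`, reduce: `ρ ζ = 1`, but
`1 + ζ + ... + ζ ^ (ℓ - 1) = 0` gives `ℓ = 0` in `κ`.) -/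
theorem exists_pow_fix [IsAlgClosed E] [CharZero E] (p : ℕ) [Fact p.Prime] [CharP κ p]
    (h : Red k E O ρ x) {r : ℕ} (t : Fin r → K) (g : K ≃ₐ[E] K) (τ : κ ≃ₐ[k] κ)
    (hg : Lifts O ρ g τ) (hgt : ∀ i, g (t i) = t i)
    (hτ : ∀ w : O, (w : K) ∈ ALG.bracket (k := E) t → τ (ρ w) = ρ w) (w : K)
    (hw : w ∈ ALG.bracket (k := E) t) : ∃ a : ℕ, (g ^ (p ^ a)) w = w := by
  obtain ⟨m, hm, hmw⟩ := inr_periodic t g hgt hw
  obtain ⟨N, hN⟩ : ∃ N, N = Function.minimalPeriod (g : K → K) w := ⟨_, rfl⟩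
  have hdvd : ∀ j : ℕ, (g ^ j) w = w ↔ N ∣ j := by
    intro j
    rw [hN, ← Function.isPeriodicPt_iff_minimalPeriod_dvd, inr_iterate]
    rfl
  have hN0 : N ≠ 0 := by
    intro h0
    have h1 := (hdvd m).1 hmw
    rw [h0, zero_dvd_iff] at h1
    omega
  have hkey : ∀ {ℓ : ℕ}, ℓ.Prime → ℓ ∣ N → ℓ = p := by
    intro ℓ hℓ hℓN
    obtain ⟨e, he⟩ := hℓN
    have he0 : 0 < e := by
      rcases Nat.eq_zero_or_pos e with h1 | h1
      · rw [h1, mul_zero] at he
        exact absurd he hN0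
      · exact h1
    have hne : (g ^ e) w ≠ w := by
      intro h1
      have h2 := Nat.le_of_dvd he0 ((hdvd e).1 h1)
      rw [he] at h2
      have h3 := hℓ.two_le
      nlinarith
    have hperiod : ((g ^ e) ^ ℓ) w = w := by
      rw [← pow_mul, mul_comm, ← he]
      exact (hdvd N).2 dvd_rfl
    obtain ⟨y, hyL, hy0, ζ, hζ1, hζℓ, hgy⟩ := exists_resolvent (ALG.bracket (k := E) t) (g ^ e) ℓ hℓ w
      (fun i => by rw [← pow_mul]; exact inr_pow_bracket t g hgt hw (e * i)) hperiod hne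
    obtain ⟨c, hc0, u, hu, huc⟩ := h.scale y hy0
    have hcK : algebraMap E K c ≠ 0 := (map_ne_zero _).2 hc0
    have hu1 : (u : K) = y * (algebraMap E K c)⁻¹ := by
      rw [huc, mul_assoc, mul_inv_cancel₀ hcK, mul_one]
    have huL : (u : K) ∈ ALG.bracket (k := E) t := by
      rw [hu1]
      exact mul_mem hyL (inv_mem (IntermediateField.algebraMap_mem _ c))
    have hgu : (g ^ e) (u : K) = algebraMap E K ζ * (u : K) := by
      rw [hu1, map_mul, map_inv₀, AlgEquiv.commutes, hgy, mul_assoc]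
    have hτu : (τ ^ e) (ρ u) = ρ u := by
      have h1 : ∀ j : ℕ, (τ ^ j) (ρ u) = ρ u := by
        intro j
        induction j with
        | zero => rfl
        | succ j ih => rw [pow_succ, AlgEquiv.mul_apply, hτ u huL, ih]
      exact h1 e
    obtain ⟨y', hy', hρy'⟩ := (hg.pow e) u
    rw [hgu] at hy'
    rw [hτu] at hρy'
    obtain ⟨v, hv⟩ := hu
    -- the root of unity as an element of `O`
    obtain ⟨z, hz⟩ : ∃ z : O, z = y' * ((v⁻¹ : Oˣ) : O) := ⟨_, rfl⟩
    have hzu : z * u = y' := by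
      rw [hz, ← hv, mul_assoc, Units.inv_mul, mul_one]
    have hu0 : (u : K) ≠ 0 := by
      intro h1
      rw [h1, zero_mul] at huc
      exact hy0 huc
    have hzK : (z : K) = algebraMap E K ζ := by
      have h1 : (z : K) * (u : K) = algebraMap E K ζ * (u : K) := by
        rw [← hy', ← hzu]
        rfl
      exact mul_right_cancel₀ hu0 h1
    have hρu : ρ u ≠ 0 := (h.ker u).2 ⟨v, hv⟩
    have hρz : ρ z = 1 := by
      have h1 : ρ z * ρ u = 1 * ρ u := by
        rw [← map_mul, hzu, hρy', one_mul]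
      exact mul_right_cancel₀ hρu h1
    have hzℓ : z ^ ℓ = 1 := by
      apply Subtype.ext
      have h1 : ((z ^ ℓ : O) : K) = (z : K) ^ ℓ := rfl
      rw [h1, hzK, ← map_pow, hζℓ, map_one]
      rfl
    have hz1 : z ≠ 1 := by
      intro h1
      apply hζ1
      have h2 : algebraMap E K ζ = algebraMap E K 1 := by
        rw [← hzK, h1, map_one]
        rfl
      exact (algebraMap E K).injective h2
    have hsum : ∑ i ∈ Finset.range ℓ, z ^ i = 0 := by
      have h1 : (∑ i ∈ Finset.range ℓ, z ^ i) * (z - 1) = 0 := by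
        rw [geom_sum_mul, hzℓ, sub_self]
      rcases mul_eq_zero.1 h1 with h2 | h2
      · exact h2
      · exact absurd (sub_eq_zero.1 h2) hz1
    have hℓκ : (ℓ : κ) = 0 := by
      have h1 := congrArg ρ hsum
      rw [map_sum, map_zero] at h1
      simp only [map_pow, hρz, one_pow, Finset.sum_const, Finset.card_range, nsmul_eq_mul,
        mul_one] at h1
      exact h1
    have hpℓ : p ∣ ℓ := (CharP.cast_eq_zero_iff κ p ℓ).1 hℓκ
    exact ((Nat.prime_dvd_prime_iff_eq (Fact.out : p.Prime) hℓ).1 hpℓ).symm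
  have hNp := Nat.eq_prime_pow_of_unique_prime_dvd hN0 hkey
  exact ⟨_, (hdvd _).2 (by rw [← hNp])⟩

end Pool.Agent.H45.CH
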