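import Pool.Agent.H20.PX.Mod
import Pool.Agent.H45.ALG.Main

/-!
# CH Perf

The fields `M_r^s`, `s ≥ 2`, and the `p`-closures of perfect fields are perfect.
-/

set_option autoImplicit false

namespace Pool.Agent.H45.CH

open IntermediateField

variable {k κ : Type*} [Field k] [Field κ] [Algebra k κ]

/-- the image of `F` under the Frobenius map -/
def frobIm (p : ℕ) [Fact p.Prime] [CharP κ p] [IsAlgClosed k] (F : IntermediateField k κ) :
    IntermediateField k κ where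
  carrier := {z | ∃ w ∈ F, w ^ p = z}
  mul_mem' := by
    rintro _ _ ⟨w, hw, rfl⟩ ⟨v, hv, rfl⟩
    exact ⟨w * v, mul_mem hw hv, mul_pow w v p⟩
  one_mem' := ⟨1, one_mem F, one_pow p⟩
  add_mem' := by
    rintro _ _ ⟨w, hw, rfl⟩ ⟨v, hv, rfl⟩
    exact ⟨w + v, add_mem hw hv, add_pow_char w v p⟩
  zero_mem' := ⟨0, zero_mem F, zero_pow (Fact.out : p.Prime).ne_zero⟩
  algebraMap_mem' := fun c => by
    obtain ⟨d, hd⟩ := IsAlgClosed.exists_pow_nat_eq c (Fact.out : p.Prime).pos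
    exact ⟨algebraMap k κ d, F.algebraMap_mem d, by rw [← map_pow, hd]⟩
  inv_mem' := by
    rintro _ ⟨w, hw, rfl⟩
    exact ⟨w⁻¹, inv_mem hw, inv_pow w p⟩

theorem mem_frobIm (p : ℕ) [Fact p.Prime] [CharP κ p] [IsAlgClosed k]
    {F : IntermediateField k κ} {z : κ} : z ∈ frobIm p F ↔ ∃ w ∈ F, w ^ p = z := Iff.rfl

/-- roots of elements of a perfect field -/
theorem mem_of_pow_mem (p : ℕ) [Fact p.Prime] [CharP κ p] [IsAlgClosed k]
    {F : IntermediateField k κ} (hF : F ≤ frobIm p F) {z : κ} (b : ℕ) (hz : z ^ (p ^ b) ∈ F) :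
    z ∈ F := by
  induction b with
  | zero => rwa [pow_zero, pow_one] at hz
  | succ b ih =>
    apply ih
    rw [pow_succ, pow_mul] at hz
    obtain ⟨w, hw, h⟩ := hF hz
    have h1 : w = z ^ p ^ b := frobenius_inj κ p (by rw [frobenius_def, frobenius_def, h])
    rwa [← h1]

/-- the fields `M_r^s`, `s ≥ 2`, are perfect -/
theorem M_perfect (p : ℕ) [Fact p.Prime] [CharP κ p] [IsAlgClosed k] [IsAlgClosed κ] {n : ℕ}
    (x : Fin n → κ) (r s : ℕ) : ALG.M k x r (s + 2) ≤ frobIm p (ALG.M k x r (s + 2)) := by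
  conv_lhs => rw [ALG.M]
  refine iSup_le (fun t => ?_)
  intro z hz
  obtain ⟨w, hw⟩ := IsAlgClosed.exists_pow_nat_eq z (Fact.out : p.Prime).pos
  refine ⟨w, ALG.bracket_le_M r s t.1 t.2 ?_, hw⟩
  rw [ALG.bracket_eq] at hz ⊢
  rw [← ALG.ac_ac]
  exact ALG.root_mem_ac (Fact.out : p.Prime).one_le (by rwa [hw])

/-- the `p`-closure of a perfect field is perfect -/
theorem pcl_perfect (p : ℕ) [Fact p.Prime] [CharP κ p] [IsAlgClosed k] [IsAlgClosed κ]
    (R : IntermediateField k κ) (hR : R ≤ frobIm p R) : PX.pcl p R ≤ frobIm p (PX.pcl p R) := by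
  intro z hz
  refine (PX.mem_pcl (p := p)).1 hz _ ?_ ?_
  · intro z hz
    obtain ⟨w, hw, h⟩ := hR hz
    exact ⟨w, PX.le_pcl p R hw, h⟩
  · rintro y ⟨w, hw, h⟩
    obtain ⟨v, hv⟩ := IsAlgClosed.exists_pow_nat_eq y (Fact.out : p.Prime).pos
    have h1 : v ^ p - v = w := by
      apply frobenius_inj κ p
      rw [frobenius_def, frobenius_def, sub_pow_char, hv, h]
    exact ⟨v, PX.pcl_closed (by rw [h1]; exact hw), hv⟩

end Pool.Agent.H45.CH
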