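import Pool.Agent.H20.PX.Gal1

/-!
# CH Pg

Elements whose orbits under all automorphisms have `p`-power length.
-/

set_option autoImplicit false

namespace Pool.Agent.H45.CH

open IntermediateField

private lemma restr_pow {k κ : Type*} [Field k] [Field κ] [Algebra k κ] (R : IntermediateField k κ)
    (τ : κ ≃ₐ[R] κ) (m : ℕ) (x : κ) : ((τ.restrictScalars k) ^ m) x = (τ ^ m) x := by
  induction m generalizing x with
  | zero => rw [pow_zero, pow_zero]; rfl
  | succ m ih =>
    rw [pow_succ, pow_succ, AlgEquiv.mul_apply, AlgEquiv.mul_apply, ih]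
    rfl

private lemma fix_pow_mul {κ R : Type*} [Field R] [Field κ] [Algebra R κ] (θ : κ ≃ₐ[R] κ) (x : κ)
    (h : θ x = x) (m : ℕ) : (θ ^ m) x = x := by
  induction m with
  | zero => rw [pow_zero]; rfl
  | succ m ih => rw [pow_succ, AlgEquiv.mul_apply, h, ih]

/-- some `z ^ (p ^ b)` is separable over `R`, it generates a finite Galois extension whose group is
a `p`-group: `PX.mem_pcl_of_galois` -/
theorem exists_pow_mem_pcl {k κ : Type*} [Field k] [Field κ] [Algebra k κ] [IsAlgClosed κ] (p : ℕ)
    [Fact p.Prime] [CharP κ p] (R : IntermediateField k κ) [Algebra.IsAlgebraic R κ] (z : κ)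
    (hz : ∀ τ ∈ R.fixingSubgroup, ∃ a : ℕ, (τ ^ (p ^ a)) z = z) :
    ∃ b : ℕ, z ^ (p ^ b) ∈ PX.pcl p R := by
  classical
  have hp : p.Prime := Fact.out
  have : Normal R κ := normal_iff.2 fun x =>
    ⟨(Algebra.IsAlgebraic.isAlgebraic (R := R) x).isIntegral, IsAlgClosed.splits _⟩
  have hz' : ∀ τ : κ ≃ₐ[R] κ, ∃ a : ℕ, (τ ^ (p ^ a)) z = z := by
    intro τ
    obtain ⟨a, ha⟩ := hz (τ.restrictScalars k)
      ((IntermediateField.mem_fixingSubgroup_iff R _).2 fun x hx => τ.commutes ⟨x, hx⟩)
    exact ⟨a, by rw [← restr_pow R τ]; exact ha⟩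
  have : CharP R p := (RingHom.charP_iff (algebraMap R κ) (algebraMap R κ).injective p).2 inferInstance
  have : CharP (separableClosure R κ) p :=
    (RingHom.charP_iff (algebraMap (separableClosure R κ) κ)
      (algebraMap (separableClosure R κ) κ).injective p).2 inferInstance
  have : ExpChar (separableClosure R κ) p := ExpChar.prime hp
  obtain ⟨b, w, hw⟩ := IsPurelyInseparable.pow_mem (separableClosure R κ) p z
  have hsep : IsSeparable R (w : κ) := mem_separableClosure_iff.1 w.2
  have hw' : (w : κ) = z ^ p ^ b := hw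
  refine ⟨b, ?_⟩
  rw [← hw']
  set f := minpoly R (w : κ) with hf
  set E : IntermediateField R κ := adjoin R (f.rootSet κ) with hE
  have hspl : (f.map (algebraMap R κ)).Splits := IsAlgClosed.splits _
  have hsf : f.IsSplittingField R E := adjoin_rootSet_isSplittingField hspl
  have hfd : FiniteDimensional R E := Polynomial.IsSplittingField.finiteDimensional E f
  have hgal : IsGalois R E := IsGalois.of_separable_splitting_field (p := f) hsep
  have hf0 : f ≠ 0 := minpoly.ne_zero (Algebra.IsAlgebraic.isAlgebraic (R := R) (w : κ)).isIntegral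
  have hwE : (w : κ) ∈ E := subset_adjoin R _ (by
    rw [Polynomial.mem_rootSet]
    exact ⟨hf0, minpoly.aeval R (w : κ)⟩)
  have hpg : IsPGroup p (E ≃ₐ[R] E) := by
    intro g
    obtain ⟨τ, rfl⟩ := AlgEquiv.restrictNormalHom_surjective κ g
    -- every root is fixed by some power
    have hroot : ∀ y ∈ f.rootSet κ, ∃ a : ℕ, (τ ^ (p ^ a)) y = y := by
      intro y hy
      rw [Polynomial.mem_rootSet] at hy
      obtain ⟨σ, hσ⟩ := minpoly.exists_algEquiv_of_root'
        (Algebra.IsAlgebraic.isAlgebraic (R := R) (w : κ)) hy.2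
      obtain ⟨a, ha⟩ := hz' (σ⁻¹ * τ * σ)
      refine ⟨a, ?_⟩
      have h1 : (σ⁻¹ * τ * σ) ^ p ^ a = σ⁻¹ * τ ^ p ^ a * σ := by
        have := conj_pow (i := p ^ a) (a := σ⁻¹) (b := τ)
        rw [inv_inv] at this
        exact this
      rw [h1] at ha
      have h2 : (τ ^ p ^ a) (σ z) = σ z := by
        have h3 := congrArg σ ha
        rw [AlgEquiv.mul_apply, AlgEquiv.mul_apply] at h3
        rwa [← AlgEquiv.mul_apply, mul_inv_cancel, AlgEquiv.one_apply] at h3
      rw [← hσ, hw', map_pow, map_pow, h2]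
    choose! a ha using hroot
    set A := ∑ y ∈ f.rootSet κ |>.toFinset, a y with hA
    refine ⟨A, ?_⟩
    have hfix : ∀ y ∈ f.rootSet κ, (τ ^ (p ^ A)) y = y := by
      intro y hy
      have hle : a y ≤ A :=
        Finset.single_le_sum (f := a) (fun _ _ => Nat.zero_le _) (Set.mem_toFinset.2 hy)
      obtain ⟨c, hc⟩ := Nat.exists_eq_add_of_le hle
      rw [hc, pow_add, pow_mul]
      exact fix_pow_mul _ y (ha y hy) _
    have hall : ∀ y ∈ adjoin R (f.rootSet κ), (τ ^ (p ^ A)) y = y := by
      intro y hy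
      induction hy using adjoin_induction with
      | mem y hy => exact hfix y hy
      | algebraMap y => exact AlgEquiv.commutes _ _
      | add y y' _ _ h h' => rw [map_add, h, h']
      | inv y _ h => rw [map_inv₀, h]
      | mul y y' _ _ h h' => rw [map_mul, h, h']
    rw [← map_pow]
    refine AlgEquiv.ext fun x => Subtype.ext ?_
    rw [AlgEquiv.restrictNormalHom_apply, AlgEquiv.one_apply]
    exact hall x x.2
  obtain ⟨s, hs⟩ := IsPGroup.iff_card.1 hpg
  rw [IsGalois.card_aut_eq_finrank] at hs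
  exact PX.mem_pcl_of_galois p R E hs hwE

end Pool.Agent.H45.CH
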