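import Pool.Agent.H45.CH.Surj
import Pool.Agent.H45.CH.Aby
import Pool.Agent.H45.CH.Inr
import Pool.Agent.H45.CH.Pg
import Pool.Agent.H45.CH.Perf
import Pool.Agent.H20.PX.Mod
import Pool.Agent.H2.HER.QTwo

/-!
# CH Main

The theorem on reduction.
-/

set_option autoImplicit false

namespace Pool.Agent.H45.CH

open IntermediateField Pool.Agent.H2.HER

section pfix

variable {E K : Type*} [Field E] [Field K] [Algebra E K]

theorem pow_mul_fix {g : K ≃ₐ[E] K} {z : K} {m : ℕ} (h : (g ^ m) z = z) (j : ℕ) :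
    (g ^ (m * j)) z = z := by
  rw [pow_mul]
  induction j with
  | zero => rw [pow_zero]; rfl
  | succ j ih => rw [pow_succ, AlgEquiv.mul_apply, h, ih]

theorem pow_fix_mono (p : ℕ) {g : K ≃ₐ[E] K} {z : K} {a b : ℕ} (hab : a ≤ b)
    (h : (g ^ (p ^ a)) z = z) : (g ^ (p ^ b)) z = z := by
  have h1 : p ^ b = p ^ a * p ^ (b - a) := by rw [← pow_add, Nat.add_sub_cancel' hab]
  rw [h1]
  exact pow_mul_fix h _

/-- the elements fixed by some `g ^ (p ^ a)` -/
def pfix (p : ℕ) (g : K ≃ₐ[E] K) : IntermediateField E K where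
  carrier := {z | ∃ a : ℕ, (g ^ (p ^ a)) z = z}
  mul_mem' := by
    rintro z w ⟨a, ha⟩ ⟨b, hb⟩
    exact ⟨max a b, by rw [map_mul, pow_fix_mono p (le_max_left a b) ha,
      pow_fix_mono p (le_max_right a b) hb]⟩
  one_mem' := ⟨0, map_one _⟩
  add_mem' := by
    rintro z w ⟨a, ha⟩ ⟨b, hb⟩
    exact ⟨max a b, by rw [map_add, pow_fix_mono p (le_max_left a b) ha,
      pow_fix_mono p (le_max_right a b) hb]⟩
  zero_mem' := ⟨0, map_zero _⟩
  algebraMap_mem' := fun c => ⟨0, AlgEquiv.commutes _ c⟩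
  inv_mem' := by
    rintro z ⟨a, ha⟩
    exact ⟨a, by rw [map_inv₀, ha]⟩

theorem mem_pfix {p : ℕ} {g : K ≃ₐ[E] K} {z : K} : z ∈ pfix p g ↔ ∃ a : ℕ, (g ^ (p ^ a)) z = z :=
  Iff.rfl

end pfix

variable {k E κ K : Type*} [Field k] [Field E] [Field κ] [Field K] [Algebra k κ]
    [Algebra E K] {O : ValuationSubring K} {ρ : O →+* κ} {n : ℕ} {x : Fin n → O}

theorem main_step [IsAlgClosed k] [IsAlgClosed E] [IsAlgClosed κ] [IsAlgClosed K] [CharZero E]
    (p : ℕ) [Fact p.Prime] [CharP κ p] (h : Red k E O ρ x) {r : ℕ} (hr : 1 ≤ r) (s : ℕ)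
    (hs : 1 ≤ s) :
    (∀ w : O, (w : K) ∈ ALG.M E (fun i => (x i : K)) r s →
      ρ w ∈ ALG.M k (fun i => ρ (x i)) r (2 * s - 1)) ∧
    (∀ (g : K ≃ₐ[E] K) (τ : κ ≃ₐ[k] κ), Lifts O ρ g τ → (∀ i, g (x i) = x i) →
      (∀ w ∈ ALG.M k (fun i => ρ (x i)) r (2 * s - 2), τ w = w) →
      ∀ z ∈ ALG.M E (fun i => (x i : K)) r s, ∃ a : ℕ, (g ^ (p ^ a)) z = z) := by
  haveI : CharP k p := (algebraMap k κ).charP (algebraMap k κ).injective p
  have hmono := M_mono (k := k) (fun i => ρ (x i)) hr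
  induction s, hs using Nat.le_induction with
  | base =>
    constructor
    · intro w hw
      exact res_base h w hw
    · intro g τ hg hgx hτ z hz
      refine ⟨0, ?_⟩
      rw [pow_zero, pow_one]
      have h1 : g ∈ (adjoin E (Set.range (fun i => (x i : K)))).fixingSubgroup :=
        ALG.mem_fs_adjoin.2 (by rintro _ ⟨i, rfl⟩; exact hgx i)
      exact ALG.mem_fs.1 h1 z hz
  | succ s hs ih =>
    obtain ⟨ih1, ih2⟩ := ih
    obtain ⟨s, rfl⟩ : ∃ s', s = s' + 1 := ⟨s - 1, by omega⟩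
    have e1 : 2 * (s + 1) - 1 = 2 * s + 1 := by omega
    have e2 : 2 * (s + 1) - 2 ≤ 2 * s + 2 := by omega
    have e3 : 2 * (s + 1 + 1) - 2 = 2 * s + 2 := by omega
    have e4 : 2 * (s + 1 + 1) - 1 = 2 * s + 2 + 1 := by omega
    rw [e1] at ih1
    rw [e3, e4]
    have hII : ∀ (g : K ≃ₐ[E] K) (τ : κ ≃ₐ[k] κ), Lifts O ρ g τ → (∀ i, g (x i) = x i) →
        (∀ w ∈ ALG.M k (fun i => ρ (x i)) r (2 * s + 2), τ w = w) →
        ∀ z ∈ ALG.M E (fun i => (x i : K)) r (s + 1 + 1), ∃ a : ℕ, (g ^ (p ^ a)) z = z := by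
      intro g τ hg hgx hτ z hz
      have hle : ALG.M E (fun i => (x i : K)) r (s + 1 + 1) ≤ pfix p g := by
        rw [ALG.M]
        refine iSup_le (fun t => ?_)
        intro w hw
        have h1 : ∀ i, ∃ a : ℕ, (g ^ (p ^ a)) (t.1 i) = t.1 i := fun i =>
          ih2 g τ hg hgx (fun w hw => hτ w (hmono e2 hw)) _ (t.2 i)
        choose a ha using h1
        obtain ⟨y, hyF, hy⟩ := exists_residues h (ALG.M E (fun i => (x i : K)) r (s + 1)) t.1 t.2
        have h5 : ALG.bracket (k := k) (fun i => ρ (y i)) ≤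
            ALG.M k (fun i => ρ (x i)) r (2 * s + 2) :=
          ALG.bracket_le_M r (2 * s) (fun i => ρ (y i)) (fun i => ih1 (y i) (hyF i))
        have h3 : ∀ w : O, (w : K) ∈ ALG.bracket (k := E) t.1 →
            (τ ^ (p ^ (Finset.univ.sup a))) (ρ w) = ρ w := by
          intro w hw
          have h6 : (τ ^ 1) (ρ w) = ρ w := by
            rw [pow_one]
            exact hτ _ (h5 (hy w hw))
          have h7 := pow_mul_fix h6 (p ^ (Finset.univ.sup a))
          rwa [one_mul] at h7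
        obtain ⟨b, hb⟩ := exists_pow_fix p h t.1 (g ^ (p ^ (Finset.univ.sup a)))
          (τ ^ (p ^ (Finset.univ.sup a))) (hg.pow _)
          (fun i => pow_fix_mono p (Finset.le_sup (Finset.mem_univ i)) (ha i)) h3 w hw
        exact ⟨Finset.univ.sup a + b, by rw [pow_add, pow_mul]; exact hb⟩
      exact hle hz
    refine ⟨?_, hII⟩
    intro w hw
    set R := ALG.M k (fun i => ρ (x i)) r (2 * s + 2) with hR
    have hxR : adjoin k (Set.range (fun i => ρ (x i))) ≤ R := by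
      have := hmono (show 0 ≤ 2 * s + 2 by omega)
      exact this
    haveI : Algebra.IsAlgebraic R κ := ⟨fun z => ALG.mem_ac.1 (ALG.ac_mono hxR (by
      rw [ALG.ac_top_of_basis h.tb']; exact mem_top))⟩
    obtain ⟨b, hb⟩ := exists_pow_mem_pcl p R (ρ w) (by
      intro τ hτ
      obtain ⟨g, hgx, hg⟩ := exists_lift h τ (fun i => ALG.mem_fs.1 hτ _
        (hxR (subset_adjoin k _ ⟨i, rfl⟩)))
      obtain ⟨a, ha⟩ := hII g τ hg hgx (ALG.mem_fs.1 hτ) (w : K) hw
      exact ⟨a, ((hg.pow (p ^ a)).eq (z := w) (y := w) ha.symm).symm⟩)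
    exact PX.pcl_M_le p (fun i => ρ (x i)) hr (2 * s + 2) (by omega)
      (mem_of_pow_mem p (pcl_perfect p R (M_perfect p (fun i => ρ (x i)) r (2 * s))) b hb)

theorem top_of_top [IsAlgClosed k] [IsAlgClosed E] [IsAlgClosed κ] [IsAlgClosed K] [CharZero E]
    (p : ℕ) [Fact p.Prime] [CharP κ p] (h : Red k E O ρ x) {r : ℕ} (hr : 1 ≤ r)
    (htop : MU E (fun i => (x i : K)) r = ⊤) : MU k (fun i => ρ (x i)) r = ⊤ := by
  rw [eq_top_iff]
  rintro z -
  obtain ⟨w, rfl⟩ := h.surj z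
  have h1 : (w : K) ∈ MU E (fun i => (x i : K)) r := by rw [htop]; exact mem_top
  obtain ⟨s, hs⟩ := (mem_MU hr).1 h1
  exact M_le_MU _ r _ ((main_step p h hr (s + 1) (Nat.le_add_left 1 s)).1 w hs)

end Pool.Agent.H45.CH
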