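import Pool.Agent.H45.CH.VA

/-!
# CH VF

The residue field of a valuation ring dominating `W[x]` at `(p)`.
-/

set_option autoImplicit false

namespace Pool.Agent.H45.CH

open Polynomial

universe u v w

variable (p : ℕ) [Fact p.Prime] {k : Type u} [Field k] [IsAlgClosed k] [CharP k p] {ι : Type w}
    {K : Type v} [Field K] [CharZero K] [Algebra (MvPolynomial ι (WittVector p k)) K]
    (O : ValuationSubring K)
    (hO : ∀ a : MvPolynomial ι (WittVector p k), ∃ b : O,
      (b : K) = algebraMap (MvPolynomial ι (WittVector p k)) K a ∧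
      (IsUnit b ↔ MvPolynomial.map WittVector.constantCoeff a ≠ 0))
    {κ : Type v} [Field κ] (ρ : O →+* κ) (hker : ∀ z : O, ρ z ≠ 0 ↔ IsUnit z)

omit [IsAlgClosed k] [CharZero K] in
include hO in
private theorem VF_lift : ∃ Θ : MvPolynomial ι (WittVector p k) →+* O,
    (∀ a, ((Θ a : O) : K) = algebraMap (MvPolynomial ι (WittVector p k)) K a) ∧
    ∀ a, IsUnit (Θ a) ↔ MvPolynomial.map WittVector.constantCoeff a ≠ 0 := by
  choose f hf hf2 using hO
  refine ⟨{ toFun := f
            map_one' := ?_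
            map_mul' := fun a b => ?_
            map_zero' := ?_
            map_add' := fun a b => ?_ }, hf, hf2⟩
  · apply Subtype.ext
    rw [hf, map_one]
    rfl
  · apply Subtype.ext
    rw [hf, map_mul]
    show _ = (f a : K) * (f b : K)
    rw [hf, hf]
  · apply Subtype.ext
    rw [hf, map_zero]
    rfl
  · apply Subtype.ext
    rw [hf, map_add]
    show _ = (f a : K) + (f b : K)
    rw [hf, hf]

include hO hker

/-- the map `k[x] → κ` -/
theorem exists_theta : ∃ θ : MvPolynomial ι k →+* κ, Function.Injective θ ∧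
    ∀ (a : MvPolynomial ι (WittVector p k)) (b : O),
      (b : K) = algebraMap (MvPolynomial ι (WittVector p k)) K a →
      ρ b = θ (MvPolynomial.map WittVector.constantCoeff a) := by
  obtain ⟨Θ, hΘ, hΘ2⟩ := VF_lift p O hO
  have hπ : Function.Surjective (MvPolynomial.map (σ := ι) (WittVector.constantCoeff : WittVector p k →+* k)) :=
    MvPolynomial.map_surjective _ (constantCoeff_surj p k)
  have hz : ∀ a, ρ (Θ a) = 0 ↔ MvPolynomial.map WittVector.constantCoeff a = 0 := fun a => by
    rw [← not_iff_not]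
    exact (hker _).trans (hΘ2 a)
  let θ : MvPolynomial ι k →+* κ :=
    (MvPolynomial.map (σ := ι) (WittVector.constantCoeff : WittVector p k →+* k)).liftOfSurjective hπ
      ⟨ρ.comp Θ, fun a ha => (hz a).2 ha⟩
  have hθ : ∀ a, θ (MvPolynomial.map WittVector.constantCoeff a) = ρ (Θ a) := fun a =>
    RingHom.liftOfRightInverse_comp_apply _ _ _ _ a
  refine ⟨θ, ?_, fun a b hb => ?_⟩
  · rw [injective_iff_map_eq_zero]
    intro y hy
    obtain ⟨a, rfl⟩ := hπ y
    rw [hθ] at hy
    exact (hz a).1 hy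
  · have h1 : b = Θ a := Subtype.ext (hb.trans (hΘ a).symm)
    rw [h1, hθ]

/-- residues of elements algebraic over `W[x]` are algebraic over `k[x]` -/
theorem algebraic_res (θ : MvPolynomial ι k →+* κ)
    (hθ : ∀ (a : MvPolynomial ι (WittVector p k)) (b : O),
      (b : K) = algebraMap (MvPolynomial ι (WittVector p k)) K a →
      ρ b = θ (MvPolynomial.map WittVector.constantCoeff a)) (z : O)
    (hz : IsAlgebraic (MvPolynomial ι (WittVector p k)) (z : K)) :
    ∃ g : (MvPolynomial ι k)[X], g ≠ 0 ∧ g.eval₂ θ (ρ z) = 0 := by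
  obtain ⟨Θ, hΘ, -⟩ := VF_lift p O hO
  obtain ⟨f, hf, hfz⟩ := hz
  obtain ⟨m, g, rfl, hg⟩ := exists_prim_poly p k f hf
  have hp : ((p : ℕ) : K) ≠ 0 := Nat.cast_ne_zero.2 (Fact.out : p.Prime).ne_zero
  have h0 : Polynomial.aeval (z : K) g = 0 := by
    rw [map_mul, map_pow, map_natCast] at hfz
    exact (mul_eq_zero.1 hfz).resolve_left (pow_ne_zero _ hp)
  refine ⟨g.map (MvPolynomial.map WittVector.constantCoeff), hg, ?_⟩
  have h1 : θ.comp (MvPolynomial.map WittVector.constantCoeff) = ρ.comp Θ :=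
    RingHom.ext fun a => (hθ a (Θ a) (hΘ a)).symm
  rw [Polynomial.eval₂_map, h1, ← Polynomial.hom_eval₂]
  have h2 : Polynomial.eval₂ Θ z g = 0 := by
    apply Subtype.ext
    show O.subtype (Polynomial.eval₂ Θ z g) = 0
    rw [Polynomial.hom_eval₂]
    have h3 : O.subtype.comp Θ = algebraMap (MvPolynomial ι (WittVector p k)) K :=
      RingHom.ext fun a => hΘ a
    rw [h3]
    exact h0
  rw [h2, map_zero]

/-- residues of elements algebraic over `W` are algebraic over `k` -/
theorem algebraic_res_const (θ : MvPolynomial ι k →+* κ)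
    (hθ : ∀ (a : MvPolynomial ι (WittVector p k)) (b : O),
      (b : K) = algebraMap (MvPolynomial ι (WittVector p k)) K a →
      ρ b = θ (MvPolynomial.map WittVector.constantCoeff a)) (z : O)
    (hz : ∃ f : (WittVector p k)[X], f ≠ 0 ∧
      f.eval₂ ((algebraMap (MvPolynomial ι (WittVector p k)) K).comp MvPolynomial.C) (z : K) = 0) :
    ∃ g : k[X], g ≠ 0 ∧ g.eval₂ (θ.comp MvPolynomial.C) (ρ z) = 0 := by
  obtain ⟨Θ, hΘ, -⟩ := VF_lift p O hO
  obtain ⟨f, hf, hfz⟩ := hz
  obtain ⟨m, g, rfl, hg⟩ := exists_prim_w p k f hf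
  have hp : ((p : ℕ) : K) ≠ 0 := Nat.cast_ne_zero.2 (Fact.out : p.Prime).ne_zero
  have h0 : g.eval₂ ((algebraMap (MvPolynomial ι (WittVector p k)) K).comp MvPolynomial.C)
      (z : K) = 0 := by
    rw [Polynomial.eval₂_mul, Polynomial.eval₂_pow, Polynomial.eval₂_natCast] at hfz
    exact (mul_eq_zero.1 hfz).resolve_left (pow_ne_zero _ hp)
  refine ⟨g.map WittVector.constantCoeff, hg, ?_⟩
  have h1 : (θ.comp MvPolynomial.C).comp WittVector.constantCoeff =
      ρ.comp (Θ.comp MvPolynomial.C) := by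
    refine RingHom.ext fun a => ?_
    have h4 := hθ (MvPolynomial.C a) (Θ (MvPolynomial.C a)) (hΘ _)
    rw [MvPolynomial.map_C] at h4
    exact h4.symm
  rw [Polynomial.eval₂_map, h1, ← Polynomial.hom_eval₂]
  have h2 : Polynomial.eval₂ (Θ.comp MvPolynomial.C) z g = 0 := by
    apply Subtype.ext
    show O.subtype (Polynomial.eval₂ (Θ.comp MvPolynomial.C) z g) = 0
    rw [Polynomial.hom_eval₂]
    have h3 : O.subtype.comp (Θ.comp MvPolynomial.C) =
        (algebraMap (MvPolynomial ι (WittVector p k)) K).comp MvPolynomial.C :=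
      RingHom.ext fun a => hΘ _
    rw [h3]
    exact h0
  rw [h2, map_zero]

end Pool.Agent.H45.CH
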