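import Mathlib

/-!
# CH VB2

The residue field of a valuation ring of an algebraically closed field.
-/

set_option autoImplicit false

namespace Pool.Agent.H45.CH

open Polynomial

/-- the residue field of a valuation ring of an algebraically closed field is algebraically
closed -/
theorem isAlgClosed_residueField {K : Type*} [Field K] [IsAlgClosed K] (O : ValuationSubring K) :
    IsAlgClosed (IsLocalRing.ResidueField O) := by
  apply IsAlgClosed.of_exists_root
  intro f hf hirr
  have hlift : f ∈ Polynomial.lifts (IsLocalRing.residue O) := by
    rw [Polynomial.lifts_iff_coeff_lifts]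
    intro i
    exact IsLocalRing.residue_surjective (f.coeff i)
  obtain ⟨g, hg, hdeg, hmon⟩ := Polynomial.lifts_and_degree_eq_and_monic hlift hf
  have hgd : (g.map (algebraMap O K)).degree ≠ 0 := by
    rw [hmon.degree_map, hdeg]
    exact hirr.degree_pos.ne'
  obtain ⟨z, hz⟩ := IsAlgClosed.exists_root (g.map (algebraMap O K)) hgd
  have hint : IsIntegral O z := ⟨g, hmon, by rwa [IsRoot, eval_map] at hz⟩
  obtain ⟨w, rfl⟩ := IsIntegrallyClosed.isIntegral_iff.1 hint
  have h1 : g.eval w = 0 := by
    have h2 : algebraMap O K (g.eval w) = 0 := by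
      rw [← eval_map_apply]
      exact hz
    exact (FaithfulSMul.algebraMap_injective O K) (h2.trans (map_zero _).symm)
  refine ⟨IsLocalRing.residue O w, ?_⟩
  rw [← hg, eval_map_apply, h1, map_zero]

end Pool.Agent.H45.CH
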