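import Mathlib

/-!
# CH VB3

In an algebraic relation over a subfield two terms have the same value.
-/

set_option autoImplicit false

namespace Pool.Agent.H45.CH

private theorem two_terms {K : Type*} [Field K] (O : ValuationSubring K) (t : ℕ → K)
    (s : Finset ℕ) (hs : s.Nonempty) (ht : ∀ i ∈ s, t i ≠ 0) (hsum : ∑ i ∈ s, t i = 0) :
    ∃ i ∈ s, ∃ j ∈ s, i < j ∧ O.valuation (t i) = O.valuation (t j) := by
  classical
  obtain ⟨m, hm, hmax⟩ := Finset.exists_max_image s (fun i => O.valuation (t i)) hs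
  have h1 : ∃ j ∈ s, j ≠ m ∧ O.valuation (t j) = O.valuation (t m) := by
    by_contra hcon
    push Not at hcon
    have hlt : ∀ j ∈ s.erase m, O.valuation (t j) < O.valuation (t m) := by
      intro j hj
      obtain ⟨hjm, hjs⟩ := Finset.mem_erase.mp hj
      exact lt_of_le_of_ne (hmax j hjs) (hcon j hjs hjm)
    have hne : O.valuation (t m) ≠ 0 := (Valuation.ne_zero_iff _).mpr (ht m hm)
    have h2 : O.valuation (∑ j ∈ s.erase m, t j) < O.valuation (t m) :=
      Valuation.map_sum_lt _ hne hlt
    have h3 : ∑ j ∈ s.erase m, t j = - t m := by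
      have := Finset.add_sum_erase s t hm
      rw [hsum] at this
      linear_combination this
    rw [h3, Valuation.map_neg] at h2
    exact lt_irrefl _ h2
  obtain ⟨j, hj, hjm, hv⟩ := h1
  rcases lt_or_gt_of_ne hjm with h | h
  · exact ⟨j, hj, m, hm, h, hv⟩
  · exact ⟨m, hm, j, hj, h, hv.symm⟩

/-- `K` algebraic over a subfield `F`: some power of `z` is a unit of `O` times an element of `F`.
(In a relation of `z` over `F` two terms have the same value.) -/
theorem exists_pow_scale {K : Type*} [Field K] (O : ValuationSubring K) (F : Subfield K) (z : K)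
    (hz0 : z ≠ 0) (hz : IsAlgebraic F z) :
    ∃ N : ℕ, 1 ≤ N ∧ ∃ f ∈ F, f ≠ 0 ∧ ∃ u : O, IsUnit u ∧ z ^ N = (u : K) * f := by
  obtain ⟨p, hp, hpz⟩ := hz
  have hsum : ∑ i ∈ p.support, ((p.coeff i : F) : K) * z ^ i = 0 := by
    rw [Polynomial.aeval_def, Polynomial.eval₂_eq_sum, Polynomial.sum_def] at hpz
    exact hpz
  have hcoe : ∀ i ∈ p.support, ((p.coeff i : F) : K) ≠ 0 := by
    intro i hi
    have := Polynomial.mem_support_iff.mp hi
    exact fun h => this (Subtype.ext (by simpa using h))
  obtain ⟨i, hi, j, hj, hij, hv⟩ := two_terms O (fun i => ((p.coeff i : F) : K) * z ^ i) p.support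
    (Polynomial.support_nonempty.mpr hp)
    (fun i hi => mul_ne_zero (hcoe i hi) (pow_ne_zero i hz0)) hsum
  have ha := hcoe i hi
  have hb := hcoe j hj
  set a : K := ((p.coeff i : F) : K) with ha'
  set b : K := ((p.coeff j : F) : K) with hb'
  have haF : a ∈ F := (p.coeff i).2
  have hbF : b ∈ F := (p.coeff j).2
  obtain ⟨d, rfl⟩ := Nat.exists_eq_add_of_lt hij
  have hval : O.valuation (z ^ (d + 1) * b / a) = 1 := by
    have h0 : O.valuation (a * z ^ i) ≠ 0 :=
      (Valuation.ne_zero_iff _).mpr (mul_ne_zero ha (pow_ne_zero i hz0))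
    have h1 : z ^ (d + 1) * b / a = (b * z ^ (i + d + 1)) / (a * z ^ i) := by
      have := pow_ne_zero i hz0
      field_simp
      ring
    rw [h1, map_div₀]
    rw [← show O.valuation (a * z ^ i) = O.valuation (b * z ^ (i + d + 1)) from hv]
    exact div_self h0
  have hmem : z ^ (d + 1) * b / a ∈ O := by
    rw [← ValuationSubring.valuation_le_one_iff]
    exact hval.le
  refine ⟨d + 1, by omega, a / b, div_mem haF hbF, div_ne_zero ha hb, ⟨z ^ (d + 1) * b / a, hmem⟩,
    ?_, ?_⟩
  · exact (ValuationSubring.valuation_eq_one_iff O _).mpr hval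
  · show z ^ (d + 1) = z ^ (d + 1) * b / a * (a / b)
    field_simp

end Pool.Agent.H45.CH
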