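import Pool.Agent.H45.CH.VB1
import Pool.Agent.H45.CH.VB2
import Pool.Agent.H45.CH.VB3

/-!
# CH VB

Collects `exists_val`, `isAlgClosed_residueField`, `exists_pow_scale`.
-/
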