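import Pool.Agent.H45.CH.VA
import Pool.Agent.H45.CH.VB

/-!
# CH VG

The value group.
-/

set_option autoImplicit false

namespace Pool.Agent.H45.CH

open Polynomial

universe u v w

/-- a root of a unit of `O` is a unit of `O` -/
private theorem vg_root {K : Type*} [Field K] (O : ValuationSubring K) (x : K) (N : ℕ)
    (hN : 1 ≤ N) (y : O) (hy : IsUnit y) (h : x ^ N = (y : K)) :
    ∃ t : O, IsUnit t ∧ (t : K) = x := by
  have h1 : O.valuation (y : K) = 1 := (O.valuation_eq_one_iff y).1 hy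
  have h2 : O.valuation x ^ N = 1 := by rw [← map_pow, h, h1]
  have h3 : O.valuation x = 1 := (pow_eq_one_iff_of_nonneg zero_le (by omega)).1 h2
  have hx : x ∈ O := (O.valuation_le_one_iff x).1 h3.le
  exact ⟨⟨x, hx⟩, (O.valuation_eq_one_iff ⟨x, hx⟩).2 h3, rfl⟩

/-- every nonzero element algebraic over `W[x]` is a unit of `O` times a root of an integral power
of `p` (`exists_prim_mv` for elements of `W[x]`, hence for its field of fractions in `K`; then
`exists_pow_scale`; `O` is integrally closed) -/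
theorem exists_scale (p : ℕ) [Fact p.Prime] {k : Type u} [Field k] [IsAlgClosed k] [CharP k p]
    {ι : Type w} {K : Type v} [Field K] [IsAlgClosed K] [CharZero K]
    [Algebra (MvPolynomial ι (WittVector p k)) K]
    (hinj : Function.Injective (algebraMap (MvPolynomial ι (WittVector p k)) K))
    (O : ValuationSubring K)
    (hO : ∀ a : MvPolynomial ι (WittVector p k), ∃ b : O,
      (b : K) = algebraMap (MvPolynomial ι (WittVector p k)) K a ∧
      (IsUnit b ↔ MvPolynomial.map WittVector.constantCoeff a ≠ 0)) (z : K) (hz0 : z ≠ 0)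
    (hz : IsAlgebraic (MvPolynomial ι (WittVector p k)) z) :
    ∃ c : K, c ≠ 0 ∧ (∃ N m : ℕ, 1 ≤ N ∧ (c ^ N = (p : K) ^ m ∨ c ^ N * (p : K) ^ m = 1)) ∧
      ∃ u : O, IsUnit u ∧ z = (u : K) * c := by
  set A := algebraMap (MvPolynomial ι (WittVector p k)) K with hA
  have hp0 : (p : K) ≠ 0 := Nat.cast_ne_zero.2 (Fact.out : p.Prime).ne_zero
  -- elements of the image of `W[x]`
  have key : ∀ f : MvPolynomial ι (WittVector p k), A f ≠ 0 →
      ∃ (m : ℕ) (t : O), IsUnit t ∧ A f = (p : K) ^ m * (t : K) := by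
    intro f hf
    have hf0 : f ≠ 0 := by
      rintro rfl
      exact hf (map_zero A)
    obtain ⟨m, g, hg, hg'⟩ := exists_prim_mv p k f hf0
    obtain ⟨b, hb, hb'⟩ := hO g
    refine ⟨m, b, hb'.2 hg', ?_⟩
    rw [hg, map_mul, map_pow, map_natCast, hb]
  -- the field of fractions in `K`
  let F : Subfield K := Subfield.closure (Set.range A)
  have hAF : ∀ a, A a ∈ F := fun a => Subfield.subset_closure ⟨a, rfl⟩
  let φ : MvPolynomial ι (WittVector p k) →+* F := A.codRestrict F hAF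
  have hφ : (algebraMap F K).comp φ = A := by
    ext a
    · rfl
    · rfl
  have hφinj : Function.Injective φ := by
    intro a b hab
    apply hinj
    exact congrArg Subtype.val hab
  have hzF : IsAlgebraic F z := by
    obtain ⟨Q, hQ, hQz⟩ := hz
    refine ⟨Q.map φ, (Polynomial.map_ne_zero_iff hφinj).2 hQ, ?_⟩
    rw [Polynomial.aeval_def, Polynomial.eval₂_map, hφ]
    rw [Polynomial.aeval_def] at hQz
    exact hQz
  obtain ⟨N, hN, f, hfF, hf0, u, hu, hzN⟩ := exists_pow_scale O F z hz0 hzF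
  -- `f` is a quotient
  have hfr : ∃ a b, f = A a / A b := by
    obtain ⟨x, hx, y, hy, hxy⟩ := Subfield.mem_closure_iff.1 hfF
    have hcl : Subring.closure (Set.range A) = A.range := by
      rw [← RingHom.coe_range, Subring.closure_eq]
    rw [hcl] at hx hy
    obtain ⟨a, rfl⟩ := hx
    obtain ⟨b, rfl⟩ := hy
    exact ⟨a, b, hxy.symm⟩
  obtain ⟨a, b, hab⟩ := hfr
  have ha0 : A a ≠ 0 := by
    intro h
    apply hf0
    rw [hab, h, zero_div]
  have hb0 : A b ≠ 0 := by
    intro h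
    apply hf0
    rw [hab, h, div_zero]
  obtain ⟨m, s, hs, hs'⟩ := key a ha0
  obtain ⟨m', t, ht, ht'⟩ := key b hb0
  obtain ⟨t', rfl⟩ := ht
  have htt : ((t' : O) : K) * ((t'⁻¹ : Oˣ) : O) = 1 := by
    exact congrArg (fun w : O => (w : K)) (Units.mul_inv t')
  have htne : ((t' : O) : K) ≠ 0 := left_ne_zero_of_mul_eq_one htt
  let w : O := u * s * ((t'⁻¹ : Oˣ) : O)
  have hw : IsUnit w := (hu.mul hs).mul (Units.isUnit _)
  have hwK : (w : K) = (u : K) * (s : K) * (((t'⁻¹ : Oˣ) : O) : K) := rfl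
  have hinvK : (((t'⁻¹ : Oˣ) : O) : K) = ((t' : O) : K)⁻¹ := eq_inv_of_mul_eq_one_right htt
  have hzN' : z ^ N * (p : K) ^ m' = (w : K) * (p : K) ^ m := by
    rw [hzN, hab, hs', ht', hwK, hinvK]
    have := pow_ne_zero m' hp0
    field_simp
  rcases le_total m' m with hmm | hmm
  · obtain ⟨c, hc⟩ := IsAlgClosed.exists_pow_nat_eq ((p : K) ^ (m - m')) (n := N) (by omega)
    have hc0 : c ≠ 0 := by
      rintro rfl
      rw [zero_pow (by omega)] at hc
      exact pow_ne_zero _ hp0 hc.symm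
    have h1 : (z / c) ^ N = (w : K) := by
      have h2 : (p : K) ^ m = (p : K) ^ (m - m') * (p : K) ^ m' := by
        rw [← pow_add, Nat.sub_add_cancel hmm]
      rw [h2, ← mul_assoc] at hzN'
      have h3 := mul_right_cancel₀ (pow_ne_zero m' hp0) hzN'
      rw [div_pow, h3, hc, mul_div_assoc, div_self (pow_ne_zero _ hp0), mul_one]
    obtain ⟨v, hv, hv'⟩ := vg_root O (z / c) N hN w hw h1
    refine ⟨c, hc0, ⟨N, m - m', hN, Or.inl hc⟩, v, hv, ?_⟩
    rw [hv', div_mul_cancel₀ _ hc0]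
  · obtain ⟨c, hc⟩ := IsAlgClosed.exists_pow_nat_eq (((p : K) ^ (m' - m))⁻¹) (n := N) (by omega)
    have hpp : ((p : K) ^ (m' - m)) ≠ 0 := pow_ne_zero _ hp0
    have hc0 : c ≠ 0 := by
      rintro rfl
      rw [zero_pow (by omega)] at hc
      exact inv_ne_zero hpp hc.symm
    have h1 : (z / c) ^ N = (w : K) := by
      have h2 : (p : K) ^ m' = (p : K) ^ (m' - m) * (p : K) ^ m := by
        rw [← pow_add, Nat.sub_add_cancel hmm]
      rw [h2, ← mul_assoc] at hzN'
      have h3 := mul_right_cancel₀ (pow_ne_zero m hp0) hzN'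
      rw [div_pow, hc, div_inv_eq_mul, h3]
    obtain ⟨v, hv, hv'⟩ := vg_root O (z / c) N hN w hw h1
    refine ⟨c, hc0, ⟨N, m' - m, hN, Or.inr ?_⟩, v, hv, ?_⟩
    · rw [hc, inv_mul_cancel₀ hpp]
    · rw [hv', div_mul_cancel₀ _ hc0]

end Pool.Agent.H45.CH
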