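import Pool.Agent.H45.CH.Defs
import Pool.Agent.H45.CH.VF
import Pool.Agent.H45.CH.VG

/-!
# CH VE

Existence of the reduction data.
-/

set_option autoImplicit false
set_option linter.style.haveILetI false

namespace Pool.Agent.H45.CH

open IntermediateField

universe u

private theorem core_VE (p : ℕ) [Fact p.Prime] (k : Type u) [Field k] [IsAlgClosed k] [CharP k p]
    (n : ℕ) (K : Type u) [Field K] [IsAlgClosed K]
    [Algebra (MvPolynomial (Fin n) (WittVector p k)) K]
    (hinj : Function.Injective (algebraMap (MvPolynomial (Fin n) (WittVector p k)) K))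
    (halg : ∀ z : K, IsAlgebraic (MvPolynomial (Fin n) (WittVector p k)) z) :
    ∃ (κ E : Type u) (_ : Field κ) (_ : Field E) (_ : Algebra k κ)
      (_ : Algebra E K) (_ : IsAlgClosed κ) (_ : IsAlgClosed E)
      (_ : CharZero E) (O : ValuationSubring K) (ρ : O →+* κ) (x : Fin n → O), Red k E O ρ x := by
  haveI := witt_domain p k
  haveI := witt_charZero p k
  haveI : CharZero (MvPolynomial (Fin n) (WittVector p k)) :=
    charZero_of_injective_algebraMap (R := WittVector p k) (MvPolynomial.C_injective (Fin n) _)
  haveI hK0 : CharZero K := charZero_of_injective_algebraMap hinj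
  letI iWK : Algebra (WittVector p k) K :=
    ((algebraMap (MvPolynomial (Fin n) (WittVector p k)) K).comp MvPolynomial.C).toAlgebra
  haveI : IsScalarTower (WittVector p k) (MvPolynomial (Fin n) (WittVector p k)) K :=
    .of_algebraMap_eq fun _ => rfl
  have hinjW : Function.Injective (algebraMap (WittVector p k) K) :=
    hinj.comp (MvPolynomial.C_injective _ _)
  haveI : FaithfulSMul (WittVector p k) K :=
    (faithfulSMul_iff_algebraMap_injective (WittVector p k) K).2 hinjW
  letI iLK : Algebra (FractionRing (WittVector p k)) K := FractionRing.liftAlgebra (WittVector p k) K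
  haveI : IsScalarTower (WittVector p k) (FractionRing (WittVector p k)) K :=
    FractionRing.isScalarTower_liftAlgebra (WittVector p k) K
  -- the valuation ring
  haveI : (RingHom.ker (MvPolynomial.map (σ := Fin n)
      (WittVector.constantCoeff : WittVector p k →+* k))).IsPrime := RingHom.ker_isPrime _
  obtain ⟨O, hO'⟩ := exists_val hinj
    (RingHom.ker (MvPolynomial.map (σ := Fin n) (WittVector.constantCoeff : WittVector p k →+* k)))
  have hO : ∀ a : MvPolynomial (Fin n) (WittVector p k), ∃ b : O,
      (b : K) = algebraMap (MvPolynomial (Fin n) (WittVector p k)) K a ∧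
      (IsUnit b ↔ MvPolynomial.map WittVector.constantCoeff a ≠ 0) := by
    intro a
    obtain ⟨b, h1, h2⟩ := hO' a
    refine ⟨b, h1, h2.trans ?_⟩
    rw [RingHom.mem_ker]
  have hker : ∀ z : O, IsLocalRing.residue O z ≠ 0 ↔ IsUnit z := fun z =>
    IsLocalRing.residue_ne_zero_iff_isUnit z
  obtain ⟨θ, hθinj, hθ⟩ := exists_theta p O hO (IsLocalRing.residue O) hker
  letI iRκ : Algebra (MvPolynomial (Fin n) k) (IsLocalRing.ResidueField O) := θ.toAlgebra
  letI ikκ : Algebra k (IsLocalRing.ResidueField O) := (θ.comp MvPolynomial.C).toAlgebra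
  haveI : IsScalarTower k (MvPolynomial (Fin n) k) (IsLocalRing.ResidueField O) :=
    .of_algebraMap_eq fun _ => rfl
  choose x hx hx' using fun i : Fin n => hO (MvPolynomial.X i)
  have memE : ∀ z : K, z ∈ algebraicClosure (FractionRing (WittVector p k)) K ↔
      IsAlgebraic (WittVector p k) z := by
    intro z
    rw [mem_algebraicClosure_iff]
    exact (IsFractionRing.isAlgebraic_iff (WittVector p k) (FractionRing (WittVector p k)) K).symm
  refine ⟨IsLocalRing.ResidueField O, algebraicClosure (FractionRing (WittVector p k)) K,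
    inferInstance, inferInstance, ikκ, inferInstance, isAlgClosed_residueField O,
    (algebraicClosure.isAlgClosure (FractionRing (WittVector p k)) K).isAlgClosed, ?_, O,
    IsLocalRing.residue O, x, ?_⟩
  · exact (algebraMap (algebraicClosure (FractionRing (WittVector p k)) K) K).charZero_iff
      (FaithfulSMul.algebraMap_injective _ _) |>.2 hK0
  refine ⟨IsLocalRing.residue_surjective, hker, ?_, ?_, ?_, ?_, ?_⟩
  · -- scale
    intro z hz
    obtain ⟨c, hc0, ⟨N, m, hN, hcN⟩, u, hu, hzu⟩ := exists_scale p hinj O hO z hz (halg z)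
    have hpow : ∀ c' : K, c' ^ N = (p : K) ^ m → IsAlgebraic (WittVector p k) c' := by
      intro c' hc'
      refine IsAlgebraic.of_pow (by omega) ?_ (n := N)
      rw [hc']
      have h0 := (isAlgebraic_algebraMap (A := K) (p : WittVector p k)).pow m
      rwa [map_natCast] at h0
    have hc : IsAlgebraic (WittVector p k) c := by
      rcases hcN with h | h
      · exact hpow c h
      · have h1 : (c⁻¹) ^ N = (p : K) ^ m := by
          rw [inv_pow]
          exact inv_eq_of_mul_eq_one_right h
        have h2 := (hpow _ h1).inv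
        rwa [inv_inv] at h2
    refine ⟨⟨c, (memE c).2 hc⟩, ?_, u, hu, hzu⟩
    intro h
    exact hc0 (congrArg Subtype.val h)
  · -- resE
    intro c z hz
    obtain ⟨f, hf0, hf⟩ := (memE (c : K)).1 c.2
    obtain ⟨g, hg0, hg⟩ := algebraic_res_const p O hO (IsLocalRing.residue O) hker θ hθ z
      ⟨f, hf0, by
        rw [hz]
        exact hf⟩
    have hi : IsIntegral k (IsLocalRing.residue O z) :=
      (show IsAlgebraic k (IsLocalRing.residue O z) from ⟨g, hg0, hg⟩).isIntegral
    have h1 := IsAlgClosed.degree_eq_one_of_irreducible k (minpoly.irreducible hi)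
    obtain ⟨a, ha⟩ := minpoly.mem_range_of_degree_eq_one k (IsLocalRing.residue O z) h1
    exact ⟨a, ha.symm⟩
  · -- liftE
    intro a
    obtain ⟨w, hw⟩ := constantCoeff_surj p k a
    obtain ⟨b, hb, -⟩ := hO (MvPolynomial.C w)
    refine ⟨⟨algebraMap (WittVector p k) K w, (memE _).2 (isAlgebraic_algebraMap w)⟩, b, hb, ?_⟩
    rw [hθ _ _ hb, MvPolynomial.map_C, hw]
    rfl
  · -- tb
    haveI : Algebra.IsAlgebraic (MvPolynomial (Fin n) (WittVector p k)) K := ⟨halg⟩
    haveI : FaithfulSMul (MvPolynomial (Fin n) (WittVector p k)) K :=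
      (faithfulSMul_iff_algebraMap_injective _ K).2 hinj
    have h1 := (IsTranscendenceBasis.mvPolynomial (Fin n) (WittVector p k)).algebraMap_comp (A := K)
    have h2 : algebraMap (MvPolynomial (Fin n) (WittVector p k)) K ∘ MvPolynomial.X =
        fun i => (x i : K) := funext fun i => (hx i).symm
    rw [h2] at h1
    haveI : IsScalarTower (WittVector p k)
        (algebraicClosure (FractionRing (WittVector p k)) K) K := .of_algebraMap_eq fun _ => rfl
    haveI : Algebra.IsAlgebraic (WittVector p k)
        (algebraicClosure (FractionRing (WittVector p k)) K) := by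
      constructor
      intro z
      have h3 := (memE (z : K)).1 z.2
      exact (isAlgebraic_algHom_iff (IsScalarTower.toAlgHom (WittVector p k)
        (algebraicClosure (FractionRing (WittVector p k)) K) K) Subtype.val_injective).1 h3
    haveI : FaithfulSMul (WittVector p k) (algebraicClosure (FractionRing (WittVector p k)) K) := by
      rw [faithfulSMul_iff_algebraMap_injective]
      intro a b hab
      exact hinjW (congrArg Subtype.val hab)
    exact (Algebra.IsAlgebraic.isTranscendenceBasis_iff (WittVector p k)
      (algebraicClosure (FractionRing (WittVector p k)) K)).1 h1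
  · -- tb'
    haveI : Algebra.IsAlgebraic (MvPolynomial (Fin n) k) (IsLocalRing.ResidueField O) := by
      constructor
      intro ξ
      obtain ⟨z, rfl⟩ := IsLocalRing.residue_surjective ξ
      obtain ⟨g, hg0, hg⟩ := algebraic_res p O hO (IsLocalRing.residue O) hker θ hθ z (halg z)
      exact ⟨g, hg0, hg⟩
    haveI : FaithfulSMul (MvPolynomial (Fin n) k) (IsLocalRing.ResidueField O) :=
      (faithfulSMul_iff_algebraMap_injective _ _).2 hθinj
    have h1 := (IsTranscendenceBasis.mvPolynomial (Fin n) k).algebraMap_comp
      (A := IsLocalRing.ResidueField O)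
    have h2 : algebraMap (MvPolynomial (Fin n) k) (IsLocalRing.ResidueField O) ∘ MvPolynomial.X =
        fun i => IsLocalRing.residue O (x i) := by
      funext i
      rw [hθ _ _ (hx i), MvPolynomial.map_X]
      rfl
    rwa [h2] at h1

/-- `K` is the algebraic closure of `Frac(W[x_1, …, x_n])`, `W = W(k)`, `O` a valuation ring of `K`
dominating `W[x]` at the prime `(p)`, `E` the algebraic closure of `Frac W` in `K`, `κ` the residue
field of `O` -/
theorem exists_red (p : ℕ) [Fact p.Prime] (k : Type u) [Field k] [IsAlgClosed k] [CharP k p]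
    (n : ℕ) :
    ∃ (κ E K : Type u) (_ : Field κ) (_ : Field E) (_ : Field K) (_ : Algebra k κ)
      (_ : Algebra E K) (_ : IsAlgClosed κ) (_ : IsAlgClosed E) (_ : IsAlgClosed K)
      (_ : CharZero E) (O : ValuationSubring K) (ρ : O →+* κ) (x : Fin n → O), Red k E O ρ x := by
  haveI := witt_domain p k
  haveI := witt_charZero p k
  have hinj : Function.Injective (algebraMap (MvPolynomial (Fin n) (WittVector p k))
      (AlgebraicClosure (FractionRing (MvPolynomial (Fin n) (WittVector p k))))) := by
    rw [IsScalarTower.algebraMap_eq (MvPolynomial (Fin n) (WittVector p k))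
      (FractionRing (MvPolynomial (Fin n) (WittVector p k)))
      (AlgebraicClosure (FractionRing (MvPolynomial (Fin n) (WittVector p k))))]
    exact (algebraMap (FractionRing (MvPolynomial (Fin n) (WittVector p k)))
      (AlgebraicClosure (FractionRing (MvPolynomial (Fin n) (WittVector p k))))).injective.comp
      (IsFractionRing.injective _ _)
  have halg : ∀ z : AlgebraicClosure (FractionRing (MvPolynomial (Fin n) (WittVector p k))),
      IsAlgebraic (MvPolynomial (Fin n) (WittVector p k)) z := by
    intro z
    exact (IsFractionRing.isAlgebraic_iff (MvPolynomial (Fin n) (WittVector p k))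
      (FractionRing (MvPolynomial (Fin n) (WittVector p k)))
      (AlgebraicClosure (FractionRing (MvPolynomial (Fin n) (WittVector p k))))).2
        (Algebra.IsAlgebraic.isAlgebraic z)
  obtain ⟨κ, E, i1, i2, i3, i4, i5, i6, i7, O, ρ, x, h⟩ := core_VE p k n
    (AlgebraicClosure (FractionRing (MvPolynomial (Fin n) (WittVector p k)))) hinj halg
  exact ⟨κ, E, _, i1, i2, inferInstance, i3, i4, i5, i6, inferInstance, i7, O, ρ, x, h⟩

end Pool.Agent.H45.CH
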