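import Mathlib

/-!
# CH SurjI

Automorphisms of the residue field of a prime of the integral closure lift.
-/

set_option autoImplicit false

namespace Pool.Agent.H45.CH

/-- `Ideal.Quotient.stabilizerHom_surjective_of_profinite` for `G = Gal(K/F)`, `B` the integral
closure of `A` in `K`, `Q` the kernel of `φ` -/
theorem exists_lift_integral {A F K κ : Type*} [CommRing A] [Field F] [Field K] [Field κ]
    [Algebra A F] [Algebra F K] [Algebra A K] [IsScalarTower A F K] [IsGalois F K]
    (hA : ∀ z : F, IsIntegral A z → ∃ a : A, algebraMap A F a = z)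
    (φ : integralClosure A K →+* κ) (hφ : Function.Surjective φ) (τ : κ ≃+* κ)
    (hτ : ∀ a : A, τ (φ (algebraMap A (integralClosure A K) a)) =
      φ (algebraMap A (integralClosure A K) a)) :
    ∃ g : K ≃ₐ[F] K, ∀ b c : integralClosure A K, (c : K) = g b → φ c = τ (φ b) := by
  have hsc : SMulCommClass (K ≃ₐ[F] K) A K := ⟨fun g a x => by
    show g (a • x) = a • g x
    rw [Algebra.smul_def, Algebra.smul_def, map_mul, IsScalarTower.algebraMap_apply A F K,
      AlgEquiv.commutes]⟩
  let tB : TopologicalSpace (integralClosure A K) := ⊥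
  have dB : DiscreteTopology (integralClosure A K) := ⟨rfl⟩
  have cB : ContinuousSMul (K ≃ₐ[F] K) (integralClosure A K) := by
    rw [continuousSMul_iff_stabilizer_isOpen]
    intro x
    have h := stabilizer_isOpen_of_isIntegral (K := F) (L := K) (x : K)
    have e : (MulAction.stabilizer (K ≃ₐ[F] K) x : Set (K ≃ₐ[F] K)) =
        MulAction.stabilizer (K ≃ₐ[F] K) (x : K) := by
      ext g
      simp only [SetLike.mem_coe, MulAction.mem_stabilizer_iff]
      exact ⟨fun h => congrArg Subtype.val h, fun h => Subtype.ext h⟩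
    rw [e]
    exact h
  have iB : Algebra.IsInvariant A (integralClosure A K) (K ≃ₐ[F] K) := by
    refine ⟨fun b hb => ?_⟩
    have h1 : ∀ g : K ≃ₐ[F] K, g (b : K) = b := fun g => congrArg Subtype.val (hb g)
    obtain ⟨z, hz⟩ := (InfiniteGalois.mem_range_algebraMap_iff_fixed (b : K)).2 h1
    have h2 : IsIntegral A z := by
      have h3 : IsIntegral A (algebraMap F K z) := by
        rw [hz]
        exact b.2
      exact (isIntegral_algebraMap_iff (algebraMap F K).injective).1 h3
    obtain ⟨a, ha⟩ := hA z h2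
    refine ⟨a, Subtype.ext ?_⟩
    rw [← hz, ← ha, ← IsScalarTower.algebraMap_apply A F K]
    rfl
  obtain ⟨Q, hQ⟩ : ∃ Q : Ideal (integralClosure A K), Q = RingHom.ker φ := ⟨_, rfl⟩
  have pQ : Q.IsPrime := by
    rw [hQ]
    exact RingHom.ker_isPrime φ
  obtain ⟨e, he⟩ : ∃ e : (integralClosure A K ⧸ Q) ≃+* κ, ∀ b, e (Ideal.Quotient.mk Q b) = φ b := by
    subst hQ
    exact ⟨RingHom.quotientKerEquivOfSurjective hφ, fun b => rfl⟩
  have lo : Q.LiesOver (Q.under A) := Q.over_under
  have hσ : ∀ r : A ⧸ Q.under A, ((e.trans τ).trans e.symm)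
      (algebraMap (A ⧸ Q.under A) (integralClosure A K ⧸ Q) r) =
        algebraMap (A ⧸ Q.under A) (integralClosure A K ⧸ Q) r := by
    intro r
    obtain ⟨a, rfl⟩ := Ideal.Quotient.mk_surjective r
    have h : algebraMap (A ⧸ Q.under A) (integralClosure A K ⧸ Q) (Ideal.Quotient.mk _ a) =
      Ideal.Quotient.mk Q (algebraMap A (integralClosure A K) a) := rfl
    rw [h]
    show e.symm (τ (e _)) = _
    rw [he, hτ, ← he, e.symm_apply_apply]
  obtain ⟨g, hg⟩ := Ideal.Quotient.stabilizerHom_surjective_of_profinite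
    (G := K ≃ₐ[F] K) (Q.under A) Q (AlgEquiv.ofRingEquiv (f := (e.trans τ).trans e.symm) hσ)
  refine ⟨g.1, fun b c hc => ?_⟩
  have h1 : c = g.1 • b := Subtype.ext hc
  have h2 := DFunLike.congr_fun hg (Ideal.Quotient.mk Q b)
  have h3 : Ideal.Quotient.mk Q c = e.symm (τ (e (Ideal.Quotient.mk Q b))) := by
    rw [h1]
    exact h2
  rw [← he c, h3, e.apply_symm_apply, he]

end Pool.Agent.H45.CH
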