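import Pool.Agent.H45.CH.Main

/-!
# CH Lift

The residue fields of the `M_r^s` contain the `M_r^s`.
-/

set_option autoImplicit false

namespace Pool.Agent.H45.CH

open IntermediateField Pool.Agent.H2.HER Polynomial

/-- roots of the reduction of a monic polynomial lift -/
theorem exists_root_lift {K κ : Type*} [Field K] [IsAlgClosed K] [Field κ] (O : ValuationSubring K)
    (ρ : O →+* κ) (N : ℕ) : ∀ (g : O[X]), g.Monic → g.natDegree = N → ∀ z : κ,
      (g.map ρ).eval z = 0 → ∃ w : O, g.eval w = 0 ∧ ρ w = z := by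
  induction N with
  | zero =>
    intro g hg hN z hz
    rw [hg.natDegree_eq_zero.1 hN] at hz
    simp at hz
  | succ N ih =>
    intro g hg hN z hz
    have hgd : (g.map (algebraMap O K)).degree ≠ 0 := by
      rw [hg.degree_map, degree_eq_natDegree hg.ne_zero, hN]
      exact_mod_cast Nat.succ_ne_zero N
    obtain ⟨v, hv⟩ := IsAlgClosed.exists_root (g.map (algebraMap O K)) hgd
    have hint : IsIntegral O v := ⟨g, hg, by rwa [IsRoot, eval_map] at hv⟩
    obtain ⟨w, rfl⟩ := IsIntegrallyClosed.isIntegral_iff.1 hint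
    have h1 : g.eval w = 0 := by
      have h2 : algebraMap O K (g.eval w) = 0 := by
        rw [← eval_map_apply]
        exact hv
      exact (FaithfulSMul.algebraMap_injective O K) (h2.trans (map_zero _).symm)
    by_cases hwz : ρ w = z
    · exact ⟨w, h1, hwz⟩
    · have h2 : (X - C w) * (g /ₘ (X - C w)) = g := mul_divByMonic_eq_iff_isRoot.2 h1
      have hmon : (X - C w).Monic := monic_X_sub_C w
      have h3 : (g /ₘ (X - C w)).Monic := hmon.of_mul_monic_left (by rw [h2]; exact hg)
      have h4 : (g /ₘ (X - C w)).natDegree = N := by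
        rw [natDegree_divByMonic g hmon, hN, natDegree_X_sub_C]
        rfl
      have h5 : ((g /ₘ (X - C w)).map ρ).eval z = 0 := by
        rw [← h2, Polynomial.map_mul, eval_mul, Polynomial.map_sub, map_X, map_C, eval_sub, eval_X,
          eval_C] at hz
        exact (mul_eq_zero.1 hz).resolve_left (fun h => hwz (sub_eq_zero.1 h).symm)
      obtain ⟨y, hy, hyz⟩ := ih _ h3 h4 z h5
      exact ⟨y, by rw [← h2, eval_mul, hy, mul_zero], hyz⟩

variable {k E κ K : Type*} [Field k] [Field E] [Field κ] [Field K] [Algebra k κ]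
    [Algebra E K] {O : ValuationSubring K} {ρ : O →+* κ} {n : ℕ} {x : Fin n → O}

/-- the residue field of `F` -/
def resF (h : Red k E O ρ x) (F : IntermediateField E K) : IntermediateField k κ where
  carrier := {z | ∃ w : O, (w : K) ∈ F ∧ ρ w = z}
  mul_mem' := by
    rintro _ _ ⟨w, hw, rfl⟩ ⟨v, hv, rfl⟩
    exact ⟨w * v, mul_mem hw hv, map_mul ρ w v⟩
  one_mem' := ⟨1, one_mem F, map_one ρ⟩
  add_mem' := by
    rintro _ _ ⟨w, hw, rfl⟩ ⟨v, hv, rfl⟩
    exact ⟨w + v, add_mem hw hv, map_add ρ w v⟩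
  zero_mem' := ⟨0, zero_mem F, map_zero ρ⟩
  algebraMap_mem' := fun a => by
    obtain ⟨c, z, hz, h1⟩ := h.liftE a
    exact ⟨z, by rw [hz]; exact F.algebraMap_mem c, h1⟩
  inv_mem' := by
    rintro _ ⟨w, hw, rfl⟩
    by_cases h0 : ρ w = 0
    · rw [h0, inv_zero]
      exact ⟨0, zero_mem F, map_zero ρ⟩
    · obtain ⟨u, rfl⟩ := (h.ker w).1 h0
      refine ⟨((u⁻¹ : Oˣ) : O), ?_, ?_⟩
      · have h1 : (((u⁻¹ : Oˣ) : O) : K) = ((u : O) : K)⁻¹ := by
          apply eq_inv_of_mul_eq_one_left
          rw [← MulMemClass.coe_mul, Units.inv_mul]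
          rfl
        rw [h1]
        exact inv_mem hw
      · apply eq_inv_of_mul_eq_one_left
        rw [← map_mul, Units.inv_mul, map_one]

theorem mem_resF (h : Red k E O ρ x) {F : IntermediateField E K} {z : κ} :
    z ∈ resF h F ↔ ∃ w : O, (w : K) ∈ F ∧ ρ w = z := Iff.rfl

theorem resF_mono (h : Red k E O ρ x) {F F' : IntermediateField E K} (hF : F ≤ F') :
    resF h F ≤ resF h F' := fun _ ⟨w, hw, hz⟩ => ⟨w, hF hw, hz⟩

/-- the residue field of an algebraically closed subfield -/
theorem ac_resF [IsAlgClosed K] (h : Red k E O ρ x) {F : IntermediateField E K}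
    (hF : ALG.ac F = F) : ALG.ac (resF h F) ≤ resF h F := by
  intro z hz
  rw [ALG.mem_ac] at hz
  let A : Subring O := F.toSubfield.toSubring.comap O.subtype
  have hA : ∀ a : A, ((a : O) : K) ∈ F := fun a => a.2
  let π : A →+* resF h F :=
    { toFun := fun a => ⟨ρ a, ⟨a, hA a, rfl⟩⟩
      map_one' := Subtype.ext (map_one ρ)
      map_mul' := fun a b => Subtype.ext (map_mul ρ (a : O) (b : O))
      map_zero' := Subtype.ext (map_zero ρ)
      map_add' := fun a b => Subtype.ext (map_add ρ (a : O) (b : O)) }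
  have hπ : Function.Surjective π := by
    rintro ⟨_, w, hw, rfl⟩
    exact ⟨⟨w, hw⟩, rfl⟩
  have hm := minpoly.monic hz.isIntegral
  have hlift : minpoly (resF h F) z ∈ Polynomial.lifts π := by
    rw [Polynomial.lifts_iff_coeff_lifts]
    intro i
    exact hπ _
  obtain ⟨g₀, hg₀, -, hmon⟩ := Polynomial.lifts_and_degree_eq_and_monic hlift hm
  have hg1 : ((g₀.map A.subtype).map ρ).eval z = 0 := by
    have h1 : (g₀.map A.subtype).map ρ = (minpoly (resF h F) z).map (algebraMap (resF h F) κ) := by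
      rw [← hg₀, Polynomial.map_map, Polynomial.map_map]
      rfl
    rw [h1, eval_map, ← aeval_def, minpoly.aeval]
  obtain ⟨w, hw, rfl⟩ := exists_root_lift O ρ _ (g₀.map A.subtype) (hmon.map _) rfl z hg1
  refine ⟨w, ?_, rfl⟩
  rw [← hF, ALG.mem_ac]
  have h2 : ((g₀.map A.subtype).map (algebraMap O K)).eval (w : K) = 0 := by
    have h3 := congrArg (algebraMap O K) hw
    rw [map_zero, ← eval_map_apply] at h3
    exact h3
  let j : A →+* F :=
    { toFun := fun a => ⟨((a : O) : K), hA a⟩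
      map_one' := rfl
      map_mul' := fun a b => rfl
      map_zero' := rfl
      map_add' := fun a b => rfl }
  refine ⟨g₀.map j, (hmon.map j).ne_zero, ?_⟩
  have h4 : (g₀.map j).map (algebraMap F K) = (g₀.map A.subtype).map (algebraMap O K) := by
    rw [Polynomial.map_map, Polynomial.map_map]
    rfl
  rw [aeval_def, ← eval_map, h4]
  exact h2

/-- the residue field of `M_r^s(n; E)` contains `M_r^s(n; k)` -/
theorem M_le_resF [IsAlgClosed K] (h : Red k E O ρ x) (r s : ℕ) :
    ALG.M k (fun i => ρ (x i)) r s ≤ resF h (ALG.M E (fun i => (x i : K)) r s) := by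
  have h0 : adjoin k (Set.range (fun i => ρ (x i))) ≤
      resF h (adjoin E (Set.range (fun i => (x i : K)))) := by
    rw [adjoin_le_iff]
    rintro _ ⟨i, rfl⟩
    exact ⟨x i, subset_adjoin E _ ⟨i, rfl⟩, rfl⟩
  induction s using Nat.strong_induction_on with
  | _ s ih =>
    rcases s with _ | _ | s
    · exact h0
    · exact h0
    · conv_lhs => rw [ALG.M]
      refine iSup_le (fun t => ?_)
      choose w hw hwt using fun i => ih (s + 1) (by omega) (t.2 i)
      have h1 : ALG.bracket (k := k) t.1 ≤ resF h (ALG.bracket (k := E) (fun i => (w i : K))) := by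
        rw [ALG.bracket_eq]
        refine (ALG.ac_mono ?_).trans (ac_resF h (by rw [ALG.bracket_eq, ALG.ac_ac]))
        rw [adjoin_le_iff]
        rintro _ ⟨i, rfl⟩
        exact ⟨w i, ALG.mem_bracket _ i, hwt i⟩
      exact h1.trans (resF_mono h (ALG.bracket_le_M r s _ hw))

/-- the residue field of `M_r(n; E)` is `M_r(n; k)` -/
theorem resF_MU [IsAlgClosed k] [IsAlgClosed E] [IsAlgClosed κ] [IsAlgClosed K] [CharZero E]
    (p : ℕ) [Fact p.Prime] [CharP κ p] (h : Red k E O ρ x) {r : ℕ} (hr : 1 ≤ r) :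
    resF h (MU E (fun i => (x i : K)) r) = MU k (fun i => ρ (x i)) r := by
  apply le_antisymm
  · rintro _ ⟨w, hw, rfl⟩
    obtain ⟨s, hs⟩ := (mem_MU hr).1 hw
    exact M_le_MU _ r _ ((main_step p h hr (s + 1) (Nat.le_add_left 1 s)).1 w hs)
  · intro z hz
    obtain ⟨s, hs⟩ := (mem_MU hr).1 hz
    exact resF_mono h (M_le_MU _ r _) (M_le_resF h r (s + 1) hs)

end Pool.Agent.H45.CH
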