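import Pool.Agent.H45.ALG.Defs

/-!
# CH Defs

Reduction of `K_n(E)`, `E` algebraically closed of characteristic zero, to `K_n(k)`.
-/

set_option autoImplicit false

namespace Pool.Agent.H45.CH

open IntermediateField

/-- `O` is a valuation ring of `K` with residue map `ρ : O → κ`, the residue field of `O ∩ E` is
`k`, every nonzero element of `K` is a unit of `O` times an element of `E`, and `x` (in `O`) and its
reduction are transcendence bases of `K / E` and `κ / k`. -/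
structure Red (k E : Type*) [Field k] [Field E] {κ K : Type*} [Field κ] [Field K] [Algebra k κ]
    [Algebra E K] (O : ValuationSubring K) (ρ : O →+* κ) {n : ℕ} (x : Fin n → O) : Prop where
  surj : Function.Surjective ρ
  ker : ∀ z : O, ρ z ≠ 0 ↔ IsUnit z
  scale : ∀ z : K, z ≠ 0 → ∃ c : E, c ≠ 0 ∧ ∃ u : O, IsUnit u ∧ z = (u : K) * algebraMap E K c
  resE : ∀ (c : E) (z : O), (z : K) = algebraMap E K c → ∃ a : k, ρ z = algebraMap k κ a
  liftE : ∀ a : k, ∃ (c : E) (z : O), (z : K) = algebraMap E K c ∧ ρ z = algebraMap k κ a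
  tb : IsTranscendenceBasis E (fun i => (x i : K))
  tb' : IsTranscendenceBasis k (fun i => ρ (x i))

/-- `g` stabilises `O` and induces `τ` on the residue field -/
def Lifts {k E κ K : Type*} [Field k] [Field E] [Field κ] [Field K] [Algebra k κ]
    [Algebra E K] (O : ValuationSubring K) (ρ : O →+* κ) (g : K ≃ₐ[E] K) (τ : κ ≃ₐ[k] κ) : Prop :=
  ∀ z : O, ∃ y : O, (y : K) = g z ∧ ρ y = τ (ρ z)

variable {k E κ K : Type*} [Field k] [Field E] [Field κ] [Field K] [Algebra k κ]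
    [Algebra E K] {O : ValuationSubring K} {ρ : O →+* κ}

theorem Lifts.one : Lifts O ρ (1 : K ≃ₐ[E] K) (1 : κ ≃ₐ[k] κ) := fun z => ⟨z, rfl, rfl⟩

theorem Lifts.mul {g h : K ≃ₐ[E] K} {τ σ : κ ≃ₐ[k] κ} (hg : Lifts O ρ g τ) (hh : Lifts O ρ h σ) :
    Lifts O ρ (g * h) (τ * σ) := by
  intro z
  obtain ⟨y, hy, hy'⟩ := hh z
  obtain ⟨w, hw, hw'⟩ := hg y
  refine ⟨w, ?_, ?_⟩
  · rw [hw, hy]; rfl
  · rw [hw', hy']; rfl

theorem Lifts.pow {g : K ≃ₐ[E] K} {τ : κ ≃ₐ[k] κ} (hg : Lifts O ρ g τ) (m : ℕ) :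
    Lifts O ρ (g ^ m) (τ ^ m) := by
  induction m with
  | zero => rw [pow_zero, pow_zero]; exact Lifts.one
  | succ m ih => rw [pow_succ, pow_succ]; exact ih.mul hg

/-- two elements of `O` with the same value in `K` -/
theorem Lifts.eq {g : K ≃ₐ[E] K} {τ : κ ≃ₐ[k] κ} (hg : Lifts O ρ g τ) {z y : O}
    (h : (y : K) = g z) : ρ y = τ (ρ z) := by
  obtain ⟨w, hw, hw'⟩ := hg z
  have : y = w := Subtype.ext (h.trans hw.symm)
  rw [this, hw']

end Pool.Agent.H45.CH
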