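import Pool.Agent.H45.CH.Defs

/-!
# CH Base

Polynomials with coefficients in `E ∩ O`.
-/

set_option autoImplicit false

namespace Pool.Agent.H45.CH

open IntermediateField

variable {k E κ K : Type*} [Field k] [Field E] [Field κ] [Field K] [Algebra k κ]
    [Algebra E K] {O : ValuationSubring K} {ρ : O →+* κ} {n : ℕ} {x : Fin n → O}

/-- a nonzero polynomial over `E` is a constant times one with a nonzero reduction: for any `y` in
`O` the value `f(y)` is `c` times an element `z` of `O` whose residue is `g(ρ(y))` with `g ≠ 0` -/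
theorem exists_reduction (h : Red k E O ρ x) {ι : Type*} (f : MvPolynomial ι E) (hf : f ≠ 0) :
    ∃ (c : E) (g : MvPolynomial ι k), c ≠ 0 ∧ g ≠ 0 ∧ ∀ y : ι → O, ∃ z : O,
      MvPolynomial.aeval (fun i => (y i : K)) f = algebraMap E K c * z ∧
      ρ z = MvPolynomial.aeval (fun i => ρ (y i)) g := by
  classical
  have hcoef : ∀ m ∈ f.support, f.coeff m ≠ 0 := fun m hm => MvPolynomial.mem_support_iff.1 hm
  have hne : f.support.Nonempty := MvPolynomial.support_nonempty.2 hf
  obtain ⟨m₀, hm₀, hmax⟩ := Finset.exists_max_image f.support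
    (fun m => O.valuation (algebraMap E K (f.coeff m))) hne
  have hc : f.coeff m₀ ≠ 0 := hcoef m₀ hm₀
  have hcK : algebraMap E K (f.coeff m₀) ≠ 0 := by
    rw [Ne, FaithfulSMul.algebraMap_eq_zero_iff]; exact hc
  have hmem : ∀ m, algebraMap E K (f.coeff m / f.coeff m₀) ∈ O := by
    intro m
    by_cases hm : m ∈ f.support
    · rw [← O.valuation_le_one_iff, map_div₀, map_div₀]
      exact div_le_one_of_le₀ (hmax m hm) zero_le
    · rw [MvPolynomial.notMem_support_iff.1 hm, zero_div, map_zero]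
      exact O.zero_mem
  choose a ha using fun m => h.resE (f.coeff m / f.coeff m₀)
    ⟨algebraMap E K (f.coeff m / f.coeff m₀), hmem m⟩ rfl
  have ha₀ : a m₀ ≠ 0 := by
    intro h0
    have h1 := ha m₀
    rw [h0, map_zero] at h1
    have h2 : (⟨algebraMap E K (f.coeff m₀ / f.coeff m₀), hmem m₀⟩ : O) = 1 :=
      Subtype.ext (by
        change algebraMap E K (f.coeff m₀ / f.coeff m₀) = 1
        rw [div_self hc, map_one])
    rw [h2, map_one] at h1
    exact one_ne_zero h1
  refine ⟨f.coeff m₀, ∑ m ∈ f.support, MvPolynomial.monomial m (a m), hc, ?_, ?_⟩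
  · intro h0
    have h1 := congrArg (MvPolynomial.coeff m₀) h0
    rw [MvPolynomial.coeff_sum, MvPolynomial.coeff_zero,
      Finset.sum_eq_single m₀ (fun m _ hne => by
        rw [MvPolynomial.coeff_monomial, if_neg hne])
        (fun hn => absurd hm₀ hn), MvPolynomial.coeff_monomial, if_pos rfl] at h1
    exact ha₀ h1
  · intro y
    refine ⟨∑ m ∈ f.support, (⟨algebraMap E K (f.coeff m / f.coeff m₀), hmem m⟩ : O) *
      ∏ i ∈ m.support, y i ^ m i, ?_, ?_⟩
    · have hz : ((∑ m ∈ f.support, (⟨algebraMap E K (f.coeff m / f.coeff m₀), hmem m⟩ : O) *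
          ∏ i ∈ m.support, y i ^ m i : O) : K) = ∑ m ∈ f.support,
          algebraMap E K (f.coeff m / f.coeff m₀) * ∏ i ∈ m.support, (y i : K) ^ m i := by
        change O.subtype _ = _
        rw [map_sum]
        refine Finset.sum_congr rfl fun m _ => ?_
        rw [map_mul, map_prod]
        congr 1
      rw [hz, MvPolynomial.aeval_def, MvPolynomial.eval₂_eq, Finset.mul_sum]
      refine Finset.sum_congr rfl fun m _ => ?_
      rw [← mul_assoc, ← map_mul, mul_div_cancel₀ _ hc]
    · rw [map_sum, map_sum]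
      refine Finset.sum_congr rfl fun m _ => ?_
      rw [map_mul, map_prod, ha m, MvPolynomial.aeval_monomial]
      congr 1
      refine Finset.prod_congr rfl fun i _ => ?_
      rw [map_pow]

/-- lifts of independent elements are independent -/
theorem indep_of_indep (h : Red k E O ρ x) {ι : Type*} (y : ι → O)
    (hy : AlgebraicIndependent k (fun i => ρ (y i))) :
    AlgebraicIndependent E (fun i => (y i : K)) := by
  rw [algebraicIndependent_iff]
  intro f hf
  by_contra hne
  obtain ⟨c, g, hc, hg, H⟩ := exists_reduction h f hne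
  obtain ⟨z, hz, hz'⟩ := H y
  rw [hf] at hz
  have hcK : algebraMap E K c ≠ 0 := by
    rw [Ne, FaithfulSMul.algebraMap_eq_zero_iff]; exact hc
  have h0 : (z : K) = 0 := (mul_eq_zero.1 hz.symm).resolve_left hcK
  have h1 : z = 0 := Subtype.ext h0
  rw [h1, map_zero] at hz'
  exact hg ((algebraicIndependent_iff.1 hy) g hz'.symm)

/-- the residue field of `E(x)` is `k(x)` -/
theorem res_base (h : Red k E O ρ x) (z : O)
    (hz : (z : K) ∈ adjoin E (Set.range (fun i => (x i : K)))) :
    ρ z ∈ adjoin k (Set.range (fun i => ρ (x i))) := by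
  obtain ⟨r, s, hrs⟩ := (IntermediateField.mem_adjoin_range_iff E _ _).1 hz
  by_cases hz0 : z = 0
  · rw [hz0, map_zero]
    exact zero_mem _
  have hzK : (z : K) ≠ 0 := fun h0 => hz0 (Subtype.ext h0)
  have hr : r ≠ 0 := by
    rintro rfl
    rw [map_zero, zero_div] at hrs
    exact hzK hrs
  have hs : s ≠ 0 := by
    rintro rfl
    rw [map_zero, div_zero] at hrs
    exact hzK hrs
  obtain ⟨c, g, hc, hg, H⟩ := exists_reduction h r hr
  obtain ⟨d, g', hd, hg', H'⟩ := exists_reduction h s hs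
  obtain ⟨z₁, h1, h1'⟩ := H x
  obtain ⟨z₂, h2, h2'⟩ := H' x
  have hne1 : ρ z₁ ≠ 0 := by
    rw [h1']
    exact fun h0 => hg ((algebraicIndependent_iff.1 h.tb'.1) g h0)
  have hne2 : ρ z₂ ≠ 0 := by
    rw [h2']
    exact fun h0 => hg' ((algebraicIndependent_iff.1 h.tb'.1) g' h0)
  have hu1 : IsUnit z₁ := (h.ker z₁).1 hne1
  have hu2 : IsUnit z₂ := (h.ker z₂).1 hne2
  obtain ⟨u, rfl⟩ := hu1
  have hcK : algebraMap E K c ≠ 0 := by
    rw [Ne, FaithfulSMul.algebraMap_eq_zero_iff]; exact hc
  have hdK : algebraMap E K d ≠ 0 := by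
    rw [Ne, FaithfulSMul.algebraMap_eq_zero_iff]; exact hd
  have hz2K : ((z₂ : O) : K) ≠ 0 := by
    intro h0
    apply hne2
    have : z₂ = 0 := Subtype.ext h0
    rw [this, map_zero]
  have huv : (((u : O) : K)) * (((u⁻¹ : Oˣ) : O) : K) = 1 := by
    have := congrArg O.subtype (u.mul_inv)
    rw [map_mul, map_one] at this
    exact this
  have he : (((z * z₂ * ((u⁻¹ : Oˣ) : O) : O)) : K) = algebraMap E K (c / d) := by
    have e1 : (((z * z₂ * ((u⁻¹ : Oˣ) : O) : O)) : K) =
      (z : K) * (z₂ : K) * (((u⁻¹ : Oˣ) : O) : K) := rfl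
    rw [e1, hrs, h1, h2, map_div₀]
    have hu0 : (((u⁻¹ : Oˣ) : O) : K) = (((u : O) : K))⁻¹ := by
      exact eq_inv_of_mul_eq_one_right huv
    have hu1 : (((u : O) : K)) ≠ 0 := left_ne_zero_of_mul_eq_one huv
    rw [hu0]
    field_simp
  obtain ⟨a, ha⟩ := h.resE (c / d) _ he
  have hfin : ρ z * ρ z₂ = algebraMap k κ a * ρ (u : O) := by
    rw [← ha, ← map_mul, ← map_mul]
    congr 1
    rw [mul_assoc (z * z₂), u.inv_mul, mul_one]
  rw [IntermediateField.mem_adjoin_range_iff]
  refine ⟨MvPolynomial.C a * g, g', ?_⟩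
  rw [map_mul, ← h1', ← h2', eq_div_iff hne2, hfin, MvPolynomial.aeval_C]

end Pool.Agent.H45.CH
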