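import Pool.Agent.H45.CH.Lift
import Pool.Agent.H45.CH.VE

/-!
# CH Place

The place of `K_n(E)` onto `K_n(k)`.
-/

set_option autoImplicit false

namespace Pool.Agent.H45.CH

open IntermediateField Pool.Agent.H2.HER

universe u

/-- for every algebraically closed `k` of characteristic `p` and every `n` there are an algebraically
closed `E` of characteristic zero and a place of `K_n(E)` onto `K_n(k)` which maps the variables to
the variables, `E` to `k`, and the `M_r^s` between `M_r^s` and `M_r^(2s - 1)` -/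
theorem exists_place (p : ℕ) [Fact p.Prime] (k : Type u) [Field k] [IsAlgClosed k] [CharP k p]
    (n : ℕ) :
    ∃ (κ E K : Type u) (_ : Field κ) (_ : Field E) (_ : Field K) (_ : Algebra k κ)
      (_ : Algebra E K) (_ : IsAlgClosed κ) (_ : IsAlgClosed E) (_ : IsAlgClosed K)
      (_ : CharZero E) (O : ValuationSubring K) (ρ : O →+* κ) (x : Fin n → O),
      Function.Surjective ρ ∧ (∀ z : O, ρ z ≠ 0 ↔ IsUnit z) ∧
      (∀ (c : E) (z : O), (z : K) = algebraMap E K c → ∃ a : k, ρ z = algebraMap k κ a) ∧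
      (∀ a : k, ∃ (c : E) (z : O), (z : K) = algebraMap E K c ∧ ρ z = algebraMap k κ a) ∧
      IsTranscendenceBasis E (fun i => (x i : K)) ∧ IsTranscendenceBasis k (fun i => ρ (x i)) ∧
      ∀ r s, 1 ≤ r → 1 ≤ s →
        (∀ w : O, (w : K) ∈ ALG.M E (fun i => (x i : K)) r s →
          ρ w ∈ ALG.M k (fun i => ρ (x i)) r (2 * s - 1)) ∧
        (∀ z ∈ ALG.M k (fun i => ρ (x i)) r s, ∃ w : O,
          (w : K) ∈ ALG.M E (fun i => (x i : K)) r s ∧ ρ w = z) := by
  obtain ⟨κ, E, K, i1, i2, i3, i4, i5, i6, i7, i8, i9, O, ρ, x, h⟩ := exists_red p k n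
  haveI : CharP κ p := charP_of_injective_algebraMap (algebraMap k κ).injective p
  exact ⟨κ, E, K, i1, i2, i3, i4, i5, i6, i7, i8, i9, O, ρ, x, h.surj, h.ker, h.resE, h.liftE,
    h.tb, h.tb', fun r s hr hs => ⟨(main_step p h hr s hs).1, M_le_resF h r s⟩⟩

end Pool.Agent.H45.CH
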