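import Pool.Agent.H45.CH.Base
import Pool.Agent.H45.CH.Loc
import Pool.Agent.H45.CH.SurjI

/-!
# CH Surj

Automorphisms of the residue field over `k(x)` lift.
-/

set_option autoImplicit false

namespace Pool.Agent.H45.CH

open IntermediateField

variable {k E κ K : Type*} [Field k] [Field E] [Field κ] [Field K] [Algebra k κ]
    [Algebra E K] {O : ValuationSubring K} {ρ : O →+* κ} {n : ℕ} {x : Fin n → O}

/-- integral elements over a subring of `O` are in `O` -/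
private theorem surj_mem {A : Subring K} (hA : ∀ a ∈ A, a ∈ O) {b : K} (hb : IsIntegral A b) : b ∈ O := by
  have h1 : IsIntegral O b := by
    obtain ⟨f, hf, hf0⟩ := hb
    let i : A →+* O :=
      { toFun := fun a => ⟨a, hA a a.2⟩
        map_one' := rfl
        map_mul' := fun _ _ => rfl
        map_zero' := rfl
        map_add' := fun _ _ => rfl }
    refine ⟨f.map i, hf.map _, ?_⟩
    rw [Polynomial.eval₂_map]
    exact hf0
  obtain ⟨y, hy⟩ := IsIntegrallyClosed.algebraMap_eq_of_integral h1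
  rw [← hy]
  exact y.2

private theorem surj_unit (z : O) (hz : IsUnit z) : (z : K) ≠ 0 ∧ (z : K)⁻¹ ∈ O := by
  obtain ⟨u, rfl⟩ := hz
  have h1 : ((u : O) : K) * (((u⁻¹ : Oˣ) : O) : K) = 1 := congrArg Subtype.val u.mul_inv
  refine ⟨left_ne_zero_of_mul_eq_one h1, ?_⟩
  rw [inv_eq_of_mul_eq_one_right h1]
  exact ((u⁻¹ : Oˣ) : O).2

private theorem surj_inv (ρ : O →+* κ) (z : O) (hz0 : (z : K) ≠ 0) (hz : (z : K)⁻¹ ∈ O) :
    ρ ⟨(z : K)⁻¹, hz⟩ = (ρ z)⁻¹ := by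
  refine eq_inv_of_mul_eq_one_left ?_
  have h1 : (⟨(z : K)⁻¹, hz⟩ : O) * z = 1 := Subtype.ext (inv_mul_cancel₀ hz0)
  rw [← map_mul, h1, map_one]

private theorem surj_div (ρ : O →+* κ) (z b c : O) (hb0 : (b : K) ≠ 0) (hb : (b : K)⁻¹ ∈ O)
    (h : (z : K) = c * (b : K)⁻¹) : ρ z = ρ c * (ρ b)⁻¹ := by
  have h1 : z = c * ⟨(b : K)⁻¹, hb⟩ := Subtype.ext h
  rw [h1, map_mul, surj_inv ρ b hb0 hb]

/-- the map on the integral closure -/
private def surjB (ρ : O →+* κ) {A : Subring K} (hA : ∀ a ∈ A, a ∈ O) : integralClosure A K →+* κ :=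
  ρ.comp
    { toFun := fun b => ⟨b, surj_mem hA b.2⟩
      map_one' := rfl
      map_mul' := fun _ _ => rfl
      map_zero' := rfl
      map_add' := fun _ _ => rfl }

private theorem surjB_apply (ρ : O →+* κ) {A : Subring K} (hA : ∀ a ∈ A, a ∈ O) (b : integralClosure A K) (z : O)
    (h : (z : K) = b) : surjB ρ hA b = ρ z := by
  have h1 : (⟨b, surj_mem hA b.2⟩ : O) = z := Subtype.ext h.symm
  show ρ ⟨b, surj_mem hA b.2⟩ = ρ z
  rw [h1]

/-- the field of the residues of `A` -/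
private def surjF (hker : ∀ z : O, ρ z ≠ 0 ↔ IsUnit z) (A : Subring K) (hA : ∀ a ∈ A, a ∈ O)
    (hinv : ∀ a ∈ A, a⁻¹ ∈ O → a⁻¹ ∈ A) : Subfield κ where
  carrier := {t | ∃ z : O, (z : K) ∈ A ∧ ρ z = t}
  mul_mem' := by
    rintro _ _ ⟨z, hz, rfl⟩ ⟨w, hw, rfl⟩
    exact ⟨z * w, A.mul_mem hz hw, map_mul _ _ _⟩
  one_mem' := ⟨1, A.one_mem, map_one _⟩
  add_mem' := by
    rintro _ _ ⟨z, hz, rfl⟩ ⟨w, hw, rfl⟩
    exact ⟨z + w, A.add_mem hz hw, map_add _ _ _⟩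
  zero_mem' := ⟨0, A.zero_mem, map_zero _⟩
  neg_mem' := by
    rintro _ ⟨z, hz, rfl⟩
    exact ⟨-z, A.neg_mem hz, map_neg _ _⟩
  inv_mem' := by
    rintro _ ⟨z, hz, rfl⟩
    by_cases h : ρ z = 0
    · rw [h, inv_zero]
      exact ⟨0, A.zero_mem, map_zero _⟩
    · obtain ⟨h1, h2⟩ := surj_unit z ((hker z).1 h)
      exact ⟨⟨_, h2⟩, hinv _ hz h2, surj_inv ρ z h1 h2⟩

private theorem surjB_surj (hsurj : Function.Surjective ρ) (hker : ∀ z : O, ρ z ≠ 0 ↔ IsUnit z) (A : Subring K)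
    (hA : ∀ a ∈ A, a ∈ O) (hinv : ∀ a ∈ A, a⁻¹ ∈ O → a⁻¹ ∈ A)
    (hfr : ∀ z : O, ∃ b c : K, IsIntegral A b ∧ IsIntegral A c ∧ b ∈ O ∧ b⁻¹ ∈ O ∧ b ≠ 0 ∧ (z : K) = c * b⁻¹) :
    Function.Surjective (surjB ρ hA) := by
  intro t
  obtain ⟨z, rfl⟩ := hsurj t
  obtain ⟨b, c, hb, hc, hbO, hbO', hb0, hz⟩ := hfr z
  let S : Subalgebra (surjF hker A hA hinv) κ :=
    { (surjB ρ hA).range.toSubsemiring with
      algebraMap_mem' := by
        rintro ⟨_, z, hz, rfl⟩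
        have h1 : IsIntegral A (z : K) := isIntegral_algebraMap (x := (⟨z, hz⟩ : A))
        exact ⟨⟨z, h1⟩, surjB_apply ρ hA _ z rfl⟩ }
  have hmem : ∀ t, t ∈ S ↔ ∃ b, surjB ρ hA b = t := fun t => Iff.rfl
  have h1 : surjB ρ hA ⟨b, hb⟩ = ρ ⟨b, hbO⟩ := surjB_apply ρ hA _ _ rfl
  have h2 : surjB ρ hA ⟨c, hc⟩ = ρ ⟨c, surj_mem hA hc⟩ := surjB_apply ρ hA _ _ rfl
  have h3 : ρ z = ρ ⟨c, surj_mem hA hc⟩ * (ρ ⟨b, hbO⟩)⁻¹ := surj_div ρ z ⟨b, hbO⟩ ⟨c, surj_mem hA hc⟩ hb0 hbO' hz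
  have h4 : ρ ⟨b, hbO⟩ ∈ S := (hmem _).2 ⟨_, h1⟩
  have h5 : IsAlgebraic (surjF hker A hA hinv) (ρ ⟨b, hbO⟩) := by
    refine IsIntegral.isAlgebraic ?_
    obtain ⟨f, hf, hf0⟩ := hb
    let i : A →+* surjF hker A hA hinv :=
      { toFun := fun a => ⟨ρ ⟨a, hA a a.2⟩, ⟨a, hA a a.2⟩, a.2, rfl⟩
        map_one' := Subtype.ext (map_one ρ)
        map_mul' := fun a b => Subtype.ext (map_mul ρ ⟨a, hA a a.2⟩ ⟨b, hA b b.2⟩)
        map_zero' := Subtype.ext (map_zero ρ)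
        map_add' := fun a b => Subtype.ext (map_add ρ ⟨a, hA a a.2⟩ ⟨b, hA b b.2⟩) }
    refine ⟨f.map i, hf.map _, ?_⟩
    let j : A →+* O :=
      { toFun := fun a => ⟨a, hA a a.2⟩
        map_one' := rfl
        map_mul' := fun _ _ => rfl
        map_zero' := rfl
        map_add' := fun _ _ => rfl }
    have h6 : Polynomial.eval₂ j (⟨b, hbO⟩ : O) f = 0 := by
      apply Subtype.ext
      have h7 := Polynomial.hom_eval₂ f j O.subtype (⟨b, hbO⟩ : O)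
      exact h7.trans hf0
    have h8 := Polynomial.hom_eval₂ f j ρ (⟨b, hbO⟩ : O)
    rw [h6, map_zero] at h8
    rw [Polynomial.eval₂_map]
    exact h8.symm
  have h6 := Subalgebra.inv_mem_of_algebraic S (x := ⟨_, h4⟩) h5
  have h7 : ρ z ∈ S := by
    rw [h3]
    exact S.mul_mem ((hmem _).2 ⟨_, h2⟩) h6
  exact (hmem _).1 h7

private theorem surj_lift {F : IntermediateField E K} [IsGalois F K] (hsurj : Function.Surjective ρ)
    (hker : ∀ z : O, ρ z ≠ 0 ↔ IsUnit z) (A : Subring K) (hA : ∀ a ∈ A, a ∈ O) (hAF : ∀ a ∈ A, a ∈ F)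
    (hmem : ∀ a ∈ O, a ∈ F → a ∈ A)
    (hfr : ∀ z : O, ∃ b c : K, IsIntegral A b ∧ IsIntegral A c ∧ b ∈ O ∧ b⁻¹ ∈ O ∧ b ≠ 0 ∧ (z : K) = c * b⁻¹)
    (τ : κ ≃+* κ) (hτ : ∀ z : O, (z : K) ∈ A → τ (ρ z) = ρ z) :
    ∃ g : K ≃ₐ[F] K, ∀ z : O, ∃ y : O, (y : K) = g z ∧ ρ y = τ (ρ z) := by
  let i : A →+* F :=
    { toFun := fun a => ⟨a, hAF a a.2⟩
      map_one' := rfl
      map_mul' := fun _ _ => rfl
      map_zero' := rfl
      map_add' := fun _ _ => rfl }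
  let _ : Algebra A F := i.toAlgebra
  have : IsScalarTower A F K := IsScalarTower.of_algebraMap_eq fun _ => rfl
  have hint : ∀ z : F, IsIntegral A z → ∃ a : A, algebraMap A F a = z := by
    intro z hz
    have h1 : IsIntegral A (z : K) := hz.map (IsScalarTower.toAlgHom A F K)
    exact ⟨⟨z, hmem _ (surj_mem hA h1) z.2⟩, rfl⟩
  have hφ : Function.Surjective (surjB ρ hA) := surjB_surj hsurj hker A hA
    (fun a ha ha' => hmem _ ha' (F.inv_mem (hAF a ha))) hfr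
  obtain ⟨g, hg⟩ := exists_lift_integral (A := A) (F := F) (K := K) hint (surjB ρ hA) hφ τ (by
    intro a
    have h1 : surjB ρ hA (algebraMap A (integralClosure A K) a) = ρ ⟨a, hA a a.2⟩ := surjB_apply ρ hA _ _ rfl
    rw [h1]
    exact hτ _ a.2)
  have hgint : ∀ b : K, IsIntegral A b → IsIntegral A (g b) := fun b hb => by
    have h1 := hb.map (g.toAlgHom.restrictScalars A)
    exact h1
  refine ⟨g, fun z => ?_⟩
  obtain ⟨b, c, hb, hc, hbO, hbO', hb0, hz⟩ := hfr z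
  have hbg := surj_mem hA (hgint b hb)
  have hcg := surj_mem hA (hgint c hc)
  have h1 : ρ ⟨g b, hbg⟩ = τ (ρ ⟨b, hbO⟩) := by
    have h2 := hg ⟨b, hb⟩ ⟨g b, hgint b hb⟩ rfl
    rw [surjB_apply ρ hA _ ⟨g b, hbg⟩ rfl, surjB_apply ρ hA _ ⟨b, hbO⟩ rfl] at h2
    exact h2
  have h2 : ρ ⟨g c, hcg⟩ = τ (ρ ⟨c, surj_mem hA hc⟩) := by
    have h2 := hg ⟨c, hc⟩ ⟨g c, hgint c hc⟩ rfl
    rw [surjB_apply ρ hA _ ⟨g c, hcg⟩ rfl, surjB_apply ρ hA _ ⟨c, surj_mem hA hc⟩ rfl] at h2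
    exact h2
  have h3 : ρ ⟨b, hbO⟩ ≠ 0 := by
    intro h0
    have h4 : (⟨b, hbO⟩ : O) * ⟨b⁻¹, hbO'⟩ = 1 := Subtype.ext (mul_inv_cancel₀ hb0)
    have h5 := congrArg ρ h4
    rw [map_mul, h0, zero_mul, map_one] at h5
    exact zero_ne_one h5
  have h4 : ρ ⟨g b, hbg⟩ ≠ 0 := by
    rw [h1]
    exact (map_ne_zero τ).2 h3
  obtain ⟨h5, h6⟩ := surj_unit _ ((hker _).1 h4)
  refine ⟨⟨g c, hcg⟩ * ⟨(g b)⁻¹, h6⟩, ?_, ?_⟩
  · show g c * (g b)⁻¹ = g z
    rw [hz, map_mul, map_inv₀]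
  · rw [map_mul, surj_inv ρ ⟨g b, hbg⟩ h5 h6, h1, h2, ← map_inv₀, ← map_mul]
    congr 1
    exact (surj_div ρ z ⟨b, hbO⟩ ⟨c, surj_mem hA hc⟩ hb0 hbO' hz).symm

/-- every `k`-automorphism of `κ` which fixes the `x_i` lifts to an `E`-automorphism of `K` which
fixes the `x_i` and stabilises `O`. (Use `exists_lift_integral` for `F = E(x)`, `A = O ∩ F`, `B` the
integral closure of `A` in `K` (inside `O`), `φ = ρ` on `B`; `res_base` gives the hypothesis on `τ`;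
by `exists_frac` and `exists_prim` each `z ∈ O` is `c / b`, `b, c ∈ B`, `ρ b ≠ 0`; `ρ b` is algebraic
over the field `ρ(A)`, so `φ` is onto.) -/
theorem exists_lift [IsAlgClosed K] [CharZero E] (h : Red k E O ρ x) (τ : κ ≃ₐ[k] κ)
    (hτ : ∀ i, τ (ρ (x i)) = ρ (x i)) :
    ∃ g : K ≃ₐ[E] K, (∀ i, g (x i) = x i) ∧ Lifts O ρ g τ := by
  have hx : ∀ i, (x i : K) ∈ adjoin E (Set.range (fun i => (x i : K))) := fun i => subset_adjoin E _ ⟨i, rfl⟩
  have halg : Algebra.IsAlgebraic (adjoin E (Set.range (fun i => (x i : K)))) K := h.tb.isAlgebraic_field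
  have : CharZero (adjoin E (Set.range (fun i => (x i : K)))) :=
    charZero_of_injective_algebraMap (algebraMap E (adjoin E (Set.range (fun i => (x i : K))))).injective
  have : IsGalois (adjoin E (Set.range (fun i => (x i : K)))) K := by
    have : IsAlgClosure (adjoin E (Set.range (fun i => (x i : K)))) K := ⟨inferInstance, halg⟩
    have : Normal (adjoin E (Set.range (fun i => (x i : K)))) K := IsAlgClosure.normal _ _
    exact { }
  have hfix : ∀ t ∈ adjoin k (Set.range (fun i => ρ (x i))), τ t = t := by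
    intro t ht
    induction ht using IntermediateField.adjoin_induction with
    | mem t ht =>
      obtain ⟨i, rfl⟩ := ht
      exact hτ i
    | algebraMap a => exact τ.commutes a
    | add a b _ _ ha hb => rw [map_add, ha, hb]
    | inv a _ ha => rw [map_inv₀, ha]
    | mul a b _ _ ha hb => rw [map_mul, ha, hb]
  obtain ⟨g, hg⟩ := surj_lift (F := adjoin E (Set.range (fun i => (x i : K)))) h.surj h.ker
    (O.toSubring ⊓ (adjoin E (Set.range (fun i => (x i : K)))).toSubfield.toSubring) (fun a ha => ha.1)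
    (fun a ha => ha.2) (fun a ha ha' => ⟨ha, ha'⟩) (by
      intro z
      obtain ⟨f, hf, i, hi⟩ := exists_prim O (adjoin E (Set.range (fun i => (x i : K)))).toSubfield (z : K)
        (halg.isAlgebraic (z : K))
      have h1 : ((f.coeff i : (O.toSubring ⊓ (adjoin E (Set.range (fun i => (x i : K)))).toSubfield.toSubring :
          Subring K)) : K) = 1 := by rw [hi]; rfl
      exact exists_frac O (O.toSubring ⊓ (adjoin E (Set.range (fun i => (x i : K)))).toSubfield.toSubring)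
        (fun a ha => ha.1) z z.2 f hf i (by rw [h1, inv_one]; exact O.one_mem)
        (by rw [h1]; exact one_ne_zero)) τ.toRingEquiv (by
      intro z hz
      exact hfix _ (res_base h z hz.2))
  refine ⟨g.restrictScalars E, fun i => ?_, fun z => ?_⟩
  · exact g.commutes ⟨(x i : K), hx i⟩
  · exact hg z

end Pool.Agent.H45.CH
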