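import Pool.Agent.H45.CH.Main
import Pool.Agent.H45.CH.VE

/-!
# CH Thr

The thresholds of the characteristics.
-/

set_option autoImplicit false

namespace Pool.Agent.H45.CH

open IntermediateField Pool.Agent.H2.HER

universe u v

/-- if `M_r(n) = K_n` for all algebraically closed fields of characteristic zero, it holds for
those of characteristic `p` -/
theorem top_of_zero (p : ℕ) [Fact p.Prime] {n r : ℕ} (hr : 1 ≤ r)
    (h0 : ∀ (E : Type u) [Field E] [IsAlgClosed E] [CharP E 0], MU E (xn E n) r = ⊤)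
    (k : Type u) [Field k] [IsAlgClosed k] [CharP k p] : MU k (xn k n) r = ⊤ := by
  obtain ⟨κ, E, K, _, _, _, _, _, _, _, _, _, O, ρ, x, h⟩ := exists_red p k n
  haveI : CharP κ p := charP_of_injective_algebraMap (algebraMap k κ).injective p
  haveI : CharP E 0 := inferInstance
  have h1 : MU E (fun i => (x i : K)) r = ⊤ := by
    have h2 := (bracket_le_MU_iff h.tb.1 r).2 (h0 E)
    rw [ALG.bracket_eq, ALG.ac_top_of_basis h.tb] at h2
    exact top_le_iff.1 h2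
  have h3 := top_of_top p h hr h1
  exact (bracket_le_MU_iff h.tb'.1 r).1 (by rw [h3]; exact le_top)

/-- the threshold statement for given `c`, `d` -/
theorem threshold_of (p : ℕ) (c : ℕ∞) (hc1 : 1 ≤ c) (d : ℕ → ℕ)
    (hc : ∀ (k : Type u) [Field k] [IsAlgClosed k] [CharP k p] (r : ℕ), 1 ≤ r →
      (c ≤ r → MU k (xn k (r + 1)) r = ⊤) ∧
      ∀ n, r < n → (∃ b : Fin (d n) → k, AlgebraicIndependent (⊥ : Subfield k) b) →
        MU k (xn k (r + 1)) r = ⊤ → c ≤ r) :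
    ∀ (k : Type u) [Field k] [IsAlgClosed k] [CharP k p] (K : Type v) [Field K] [IsAlgClosed K]
      [Algebra k K] (n : ℕ) (x : Fin n → K), 1 ≤ n → IsTranscendenceBasis k x →
      (∀ r r', 1 ≤ r → r < r' → r' ≤ n → c ≤ r → MU k x r = MU k x r') ∧
      {F | ∃ r, 1 ≤ r ∧ r ≤ n ∧ F = MU k x r}.encard ≤ min (n : ℕ∞) c ∧
      ((∃ b : Fin (d n) → k, AlgebraicIndependent (⊥ : Subfield k) b) →
        (∀ r r', 1 ≤ r → r < r' → r' ≤ n → (MU k x r = MU k x r' ↔ c ≤ r)) ∧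
        {F | ∃ r, 1 ≤ r ∧ r ≤ n ∧ F = MU k x r}.encard = min (n : ℕ∞) c) := by
  intro k _ _ _ K _ _ _ n x hn hx
  have hA : ∀ r r', 1 ≤ r → r < r' → r' ≤ n → c ≤ r → MU k x r = MU k x r' := by
    intro r r' hr hrr' hn' hcr
    rw [MU_eq_iff_steps x hr hrr'.le]
    intro j hj hj'
    refine (MU_eq_succ_iff x hx (by omega) (by omega) _ (basis_xn k (j + 1))).2 ?_
    exact (hc k j (by omega)).1 (hcr.trans (by exact_mod_cast hj))
  refine ⟨hA, ?_, fun hB => ⟨?_, ?_⟩⟩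
  · rw [encard_eq hn x hx, ← card_lt n hn c hc1]
    have h1 : {r | 1 ≤ r ∧ r < n ∧ MU k (xn k (r + 1)) r ≠ ⊤} ⊆
        {r : ℕ | 1 ≤ r ∧ r < n ∧ (r : ℕ∞) < c} := by
      rintro r ⟨h1, h2, h3⟩
      refine ⟨h1, h2, ?_⟩
      by_contra h4
      exact h3 ((hc k r h1).1 (not_lt.1 h4))
    have h2 := Set.ncard_le_ncard h1 (finite_steps n _)
    exact_mod_cast Nat.add_le_add_left h2 1
  · intro r r' hr hrr' hn'
    refine ⟨fun h => ?_, hA r r' hr hrr' hn'⟩
    have h1 := (MU_eq_iff_steps x hr hrr'.le).1 h r le_rfl hrr'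
    exact (hc k r hr).2 n (by omega) hB
      ((MU_eq_succ_iff x hx hr (by omega) _ (basis_xn k (r + 1))).1 h1)
  · rw [encard_eq hn x hx, ← card_lt n hn c hc1]
    have h1 : {r | 1 ≤ r ∧ r < n ∧ MU k (xn k (r + 1)) r ≠ ⊤} =
        {r : ℕ | 1 ≤ r ∧ r < n ∧ (r : ℕ∞) < c} := by
      ext r
      constructor
      · rintro ⟨h1, h2, h3⟩
        refine ⟨h1, h2, ?_⟩
        by_contra h4
        exact h3 ((hc k r h1).1 (not_lt.1 h4))
      · rintro ⟨h1, h2, h3⟩
        exact ⟨h1, h2, fun h => absurd ((hc k r h1).2 n h2 hB h) (not_le.2 h3)⟩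
    rw [h1]

/-- the number of distinct fields among `M_1, …, M_n` -/
theorem threshold' : ∃ c : ℕ → ℕ∞, (∀ p, 1 ≤ c p) ∧ (∀ p, c p ≤ c 0) ∧ ∀ p, ∃ d : ℕ → ℕ,
    ∀ (k : Type u) [Field k] [IsAlgClosed k] [CharP k p] (K : Type v) [Field K] [IsAlgClosed K]
      [Algebra k K] (n : ℕ) (x : Fin n → K), 1 ≤ n → IsTranscendenceBasis k x →
      (∀ r r', 1 ≤ r → r < r' → r' ≤ n → c p ≤ r → MU k x r = MU k x r') ∧
      {F | ∃ r, 1 ≤ r ∧ r ≤ n ∧ F = MU k x r}.encard ≤ min (n : ℕ∞) (c p) ∧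
      ((∃ b : Fin (d n) → k, AlgebraicIndependent (⊥ : Subfield k) b) →
        (∀ r r', 1 ≤ r → r < r' → r' ≤ n → (MU k x r = MU k x r' ↔ c p ≤ r)) ∧
        {F | ∃ r, 1 ≤ r ∧ r ≤ n ∧ F = MU k x r}.encard = min (n : ℕ∞) (c p)) := by
  classical
  choose c hc1 d hc using fun p => exists_const.{u} p
  have hle : ∀ p, p.Prime → c p ≤ c 0 := by
    intro p hp
    haveI := Fact.mk hp
    by_cases htop : c 0 = ⊤
    · rw [htop]; exact le_top
    · obtain ⟨r, hr⟩ := ENat.ne_top_iff_exists.1 htop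
      have hr1 : 1 ≤ r := by
        have := hc1 0
        rw [← hr] at this
        exact_mod_cast this
      obtain ⟨k₃, _, _, _, B, hB⟩ := exists_big (ULift.{u} (ZMod p)) p
      have h1 : MU k₃ (xn k₃ (r + 1)) r = ⊤ :=
        top_of_zero p hr1 (fun E _ _ _ => (hc 0 E r hr1).1 hr.ge) k₃
      have h2 := (hc p k₃ r hr1).2 (r + 1) (Nat.lt_succ_self r)
        ⟨fun i => B i, hB.comp _ Fin.val_injective⟩ h1
      rw [← hr]
      exact h2
  refine ⟨fun p => if p.Prime ∨ p = 0 then c p else 1, ?_, ?_, ?_⟩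
  · intro p
    dsimp only
    split_ifs
    · exact hc1 p
    · exact le_rfl
  · intro p
    dsimp only
    rw [if_pos (Or.inr rfl : Nat.Prime 0 ∨ 0 = 0)]
    split_ifs with h
    · rcases h with h | rfl
      · exact hle p h
      · exact le_rfl
    · exact hc1 0
  · intro p
    refine ⟨d p, fun k _ _ _ => ?_⟩
    have h : p.Prime ∨ p = 0 := CharP.char_is_prime_or_zero k p
    dsimp only
    rw [if_pos h]
    exact threshold_of.{u, v} p (c p) (hc1 p) (d p) (hc p) k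

end Pool.Agent.H45.CH
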