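import Mathlib

/-!
# CH VA

Witt vectors: primitive parts. (Generic idea: `π : A → B` a ring map with `π a = 0 ↔ p ∣ a`, `A` a
domain, `p ≠ 0` in `A`, and no nonzero element divisible by all `p ^ m`; this holds for `W(k) → k`
and passes to polynomial rings.)
-/

set_option autoImplicit false

namespace Pool.Agent.H45.CH

open Polynomial

universe u

/-- `q` is the kernel of `π`, and no nonzero element is divisible by all its powers -/
private def GoodVA {A B : Type*} [CommRing A] [CommRing B] (q : ℕ) (π : A →+* B) : Prop :=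
  (∀ a, π a = 0 ↔ (q : A) ∣ a) ∧ ∀ a, a ≠ 0 → ∃ m : ℕ, ¬ (q : A) ^ m ∣ a

private theorem primVA {A B : Type*} [CommRing A] [CommRing B] {q : ℕ} {π : A →+* B} (h : GoodVA q π)
    {a : A} (ha : a ≠ 0) : ∃ (m : ℕ) (g : A), a = (q : A) ^ m * g ∧ π g ≠ 0 := by
  classical
  have hex := h.2 a ha
  obtain ⟨m, hm⟩ : ∃ m, m = Nat.find hex := ⟨_, rfl⟩
  have h1 : ¬ (q : A) ^ m ∣ a := by
    rw [hm]
    exact Nat.find_spec hex
  have h2 : ∀ l < m, (q : A) ^ l ∣ a := by
    intro l hl
    rw [hm] at hl
    exact not_not.1 (Nat.find_min hex hl)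
  have h3 : m ≠ 0 := by
    rintro rfl
    exact h1 (by rw [pow_zero]; exact one_dvd a)
  obtain ⟨l, rfl⟩ := Nat.exists_eq_succ_of_ne_zero h3
  obtain ⟨g, hg⟩ := h2 l (Nat.lt_succ_self l)
  refine ⟨l, g, hg, fun h4 => h1 ?_⟩
  obtain ⟨g', hg'⟩ := (h.1 g).1 h4
  refine ⟨g', ?_⟩
  rw [hg, hg', Nat.succ_eq_add_one, pow_succ, mul_assoc]

private theorem goodVA_poly {A B : Type*} [CommRing A] [CommRing B] {q : ℕ} {π : A →+* B}
    (h : GoodVA q π) : GoodVA q (Polynomial.mapRingHom π) := by
  have hc : ∀ m : ℕ, (q : A[X]) ^ m = C ((q : A) ^ m) := by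
    intro m
    rw [C_pow, C_eq_natCast]
  refine ⟨fun f => ?_, fun f hf => ?_⟩
  · have h1 := hc 1
    rw [pow_one, pow_one] at h1
    rw [h1, C_dvd_iff_dvd_coeff, coe_mapRingHom, Polynomial.ext_iff]
    refine forall_congr' fun i => ?_
    rw [coeff_map, coeff_zero]
    exact h.1 _
  · obtain ⟨i, hi⟩ : ∃ i, f.coeff i ≠ 0 := by
      by_contra hcon
      push Not at hcon
      exact hf (Polynomial.ext fun i => by rw [hcon i, coeff_zero])
    obtain ⟨m, hm⟩ := h.2 _ hi
    refine ⟨m, fun h2 => hm ?_⟩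
    rw [hc, C_dvd_iff_dvd_coeff] at h2
    exact h2 i

private theorem goodVA_mv {A B : Type*} [CommRing A] [CommRing B] {q : ℕ} {π : A →+* B}
    (h : GoodVA q π) (ι : Type*) :
    GoodVA q (MvPolynomial.map π : MvPolynomial ι A →+* MvPolynomial ι B) := by
  have hc : ∀ m : ℕ, (q : MvPolynomial ι A) ^ m = MvPolynomial.C ((q : A) ^ m) := by
    intro m
    rw [map_pow, map_natCast]
  refine ⟨fun f => ?_, fun f hf => ?_⟩
  · have h1 := hc 1
    rw [pow_one, pow_one] at h1
    rw [h1, MvPolynomial.C_dvd_iff_dvd_coeff, MvPolynomial.ext_iff]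
    refine forall_congr' fun i => ?_
    rw [MvPolynomial.coeff_map, MvPolynomial.coeff_zero]
    exact h.1 _
  · obtain ⟨i, hi⟩ : ∃ i, f.coeff i ≠ 0 := by
      by_contra hcon
      push Not at hcon
      exact hf (MvPolynomial.ext _ _ fun i => by rw [hcon i, MvPolynomial.coeff_zero])
    obtain ⟨m, hm⟩ := h.2 _ hi
    refine ⟨m, fun h2 => hm ?_⟩
    rw [hc, MvPolynomial.C_dvd_iff_dvd_coeff] at h2
    exact h2 i

variable (p : ℕ) [Fact p.Prime] (k : Type u) [Field k] [IsAlgClosed k] [CharP k p]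

theorem witt_domain : IsDomain (WittVector p k) := inferInstance

private theorem goodVA_witt : GoodVA p (WittVector.constantCoeff : WittVector p k →+* k) := by
  have h1 : ∀ a : WittVector p k, WittVector.constantCoeff a = 0 ↔ (p : WittVector p k) ∣ a := by
    intro a
    rw [← Ideal.mem_span_singleton, WittVector.mem_span_p_iff_coeff_zero_eq_zero]
    rfl
  refine ⟨h1, fun a ha => ?_⟩
  obtain ⟨m, b, hb, hab⟩ := WittVector.exists_eq_pow_p_mul a ha
  refine ⟨m + 1, fun ⟨c, hc⟩ => hb ?_⟩
  rw [hab, pow_succ, mul_assoc] at hc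
  have h2 : b = (p : WittVector p k) * c :=
    mul_left_cancel₀ (pow_ne_zero m (WittVector.p_nonzero p k)) hc
  exact (h1 b).2 ⟨c, h2⟩

theorem witt_charZero : CharZero (WittVector p k) := by
  obtain ⟨q, hq⟩ := CharP.exists (WittVector p k)
  rcases CharP.char_is_prime_or_zero (WittVector p k) q with h | h
  · exfalso
    have h1 : (q : WittVector p k) = 0 := CharP.cast_eq_zero _ q
    have h2 : (q : k) = 0 := by
      have h3 := congrArg (WittVector.constantCoeff : WittVector p k →+* k) h1
      rwa [map_natCast, map_zero] at h3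
    have h4 : p ∣ q := (CharP.cast_eq_zero_iff k p q).1 h2
    have h5 : p = q := (Nat.prime_dvd_prime_iff_eq Fact.out h).1 h4
    rw [← h5] at h1
    exact WittVector.p_nonzero p k h1
  · rw [h] at hq
    exact CharP.charP_to_charZero _

theorem constantCoeff_surj :
    Function.Surjective (WittVector.constantCoeff : WittVector p k →+* k) :=
  WittVector.constantCoeff_surjective p

theorem constantCoeff_p : WittVector.constantCoeff ((p : WittVector p k)) = (0 : k) := by
  rw [map_natCast, CharP.cast_eq_zero]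

/-- primitive part of a nonzero multivariate polynomial over the Witt vectors -/
theorem exists_prim_mv {ι : Type*} (f : MvPolynomial ι (WittVector p k)) (hf : f ≠ 0) :
    ∃ (m : ℕ) (g : MvPolynomial ι (WittVector p k)),
      f = (p : MvPolynomial ι (WittVector p k)) ^ m * g ∧
      MvPolynomial.map WittVector.constantCoeff g ≠ 0 :=
  primVA (goodVA_mv (goodVA_witt p k) ι) hf

/-- primitive part of a nonzero polynomial over the Witt vectors -/
theorem exists_prim_w (f : (WittVector p k)[X]) (hf : f ≠ 0) :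
    ∃ (m : ℕ) (g : (WittVector p k)[X]), f = (p : (WittVector p k)[X]) ^ m * g ∧
      g.map WittVector.constantCoeff ≠ 0 :=
  primVA (goodVA_poly (goodVA_witt p k)) hf

/-- primitive part of a nonzero polynomial over `W[x]` -/
theorem exists_prim_poly {ι : Type*} (f : (MvPolynomial ι (WittVector p k))[X]) (hf : f ≠ 0) :
    ∃ (m : ℕ) (g : (MvPolynomial ι (WittVector p k))[X]),
      f = (p : (MvPolynomial ι (WittVector p k))[X]) ^ m * g ∧
      g.map (MvPolynomial.map WittVector.constantCoeff) ≠ 0 :=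
  primVA (goodVA_poly (goodVA_mv (goodVA_witt p k) ι)) hf

end Pool.Agent.H45.CH
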