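import Mathlib

/-!
# CH VB1

A valuation ring dominating a prime of a domain.
-/

set_option autoImplicit false

namespace Pool.Agent.H45.CH

/-- `LocalSubring.exists_le_valuationSubring` for the localization of `R` at `P` -/
theorem exists_val {R K : Type*} [CommRing R] [IsDomain R] [Field K] [Algebra R K]
    (hinj : Function.Injective (algebraMap R K)) (P : Ideal R) [P.IsPrime] :
    ∃ O : ValuationSubring K, ∀ a : R, ∃ b : O, (b : K) = algebraMap R K a ∧ (IsUnit b ↔ a ∉ P) := by
  set A : Subring K := (algebraMap R K).range with hA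
  let e : R ≃+* A := RingEquiv.ofBijective (algebraMap R K).rangeRestrict
    ⟨fun x y h => hinj (congrArg Subtype.val h), (algebraMap R K).rangeRestrict_surjective⟩
  have he : ∀ a, ((e a : A) : K) = algebraMap R K a := fun a => rfl
  let P' : Ideal A := P.comap (e.symm : A →+* R)
  have hP' : P'.IsPrime := Ideal.comap_isPrime _ _
  have hmem : ∀ a, e a ∈ P' ↔ a ∈ P := by
    intro a
    rw [Ideal.mem_comap]
    change e.symm (e a) ∈ P ↔ _
    rw [e.symm_apply_apply]
  obtain ⟨O, hO⟩ := (LocalSubring.ofPrime A P').exists_le_valuationSubring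
  obtain ⟨hle, hloc⟩ := LocalSubring.le_def.1 hO
  refine ⟨O, fun a => ?_⟩
  let c : (LocalSubring.ofPrime A P').toSubring :=
    algebraMap A (LocalSubring.ofPrime A P').toSubring (e a)
  have hc : (c : K) = algebraMap R K a := rfl
  have hu : IsUnit c ↔ a ∉ P := by
    rw [← hmem a]
    exact IsLocalization.AtPrime.isUnit_to_map_iff (LocalSubring.ofPrime A P').toSubring P' (e a)
  refine ⟨Subring.inclusion hle c, hc, ?_⟩
  rw [← hu]
  exact ⟨fun h => hloc.map_nonunit c h, fun h => h.map (Subring.inclusion hle)⟩

end Pool.Agent.H45.CH
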